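import Pool.Agent.Lib.MP_89fcdb_gt.Interfaces

/-!
# MP_89fcdb_gt: the suspension (Thom) isomorphism for pairs

For open subsets `U`, `V` of `X` with `H^*(X, U) = H^*(X, V) = 0` there is an isomorphism
`H^m(X, U ∩ V) → H^{m+1}(X, U ∪ V)`.
-/

open scoped BigOperators
open Set Topology Pool.Agent.Lib.MP_904b2a_gt

namespace Pool.Agent.Lib.MP_89fcdb_gt.TH27

noncomputable section

section conn

variable {X Y : Type*} [TopologicalSpace X] [TopologicalSpace Y]
variable {A B : Type*} [AddCommGroup A] [AddCommGroup B] {U V : Set X}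

theorem smallC_union (hU : IsOpen U) (hV : IsOpen V) :
    SmallC ((incl (U ∪ V)) ⁻¹' U) ((incl (U ∪ V)) ⁻¹' V) A := by
  refine smallC (hU.preimage (incl (U ∪ V)).continuous) (hV.preimage (incl (U ∪ V)).continuous) ?_
  ext x
  exact ⟨fun _ => trivial, fun _ => x.2⟩

theorem pb_small {n : ℕ} {γ : Coch n X A} (h1 : γ ∈ relCoch A U n) (h2 : γ ∈ relCoch A V n)
    (σ : C(Simp n, ↥(U ∪ V)))
    (hσ : Sm ((incl (U ∪ V)) ⁻¹' U) ((incl (U ∪ V)) ⁻¹' V) σ) :
    pbC n (incl (U ∪ V)) γ σ = 0 := by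
  rcases hσ with hσ | hσ
  · exact h1 _ (fun t => hσ t)
  · exact h2 _ (fun t => hσ t)

theorem ext_small {n : ℕ} {ψ : Coch n ↥(U ∪ V) A}
    (h : ∀ σ, Sm ((incl (U ∪ V)) ⁻¹' U) ((incl (U ∪ V)) ⁻¹' V) σ → ψ σ = 0) :
    extC n ψ ∈ relCoch A U n ∧ extC n ψ ∈ relCoch A V n := by
  constructor
  · intro σ hσ
    have h1 : InS (U ∪ V) σ := hσ.mono subset_union_left
    rw [extC_of_inS _ h1]
    exact h _ (Or.inl fun t => hσ t)
  · intro σ hσ
    have h1 : InS (U ∪ V) σ := hσ.mono subset_union_right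
    rw [extC_of_inS _ h1]
    exact h _ (Or.inr fun t => hσ t)

theorem correct_zero (hU : IsOpen U) (hV : IsOpen V) {γ : Coch 0 X A} (h1 : γ ∈ relCoch A U 0)
    (h2 : γ ∈ relCoch A V 0) : γ ∈ relCoch A (U ∪ V) 0 := by
  rw [mem_relCoch_iff]
  exact (smallC_union hU hV).zero _ (pb_small h1 h2)

theorem correct (hU : IsOpen U) (hV : IsOpen V) {n : ℕ} {γ : Coch (n + 1) X A}
    (hc : cob (n + 1) γ ∈ relCoch A (U ∪ V) (n + 2)) (h1 : γ ∈ relCoch A U (n + 1))
    (h2 : γ ∈ relCoch A V (n + 1)) :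
    ∃ ψ : Coch n X A, ψ ∈ relCoch A U n ∧ ψ ∈ relCoch A V n ∧
      γ - cob n ψ ∈ relCoch A (U ∪ V) (n + 1) := by
  obtain ⟨ψ, h3, h4⟩ := (smallC_union (A := A) hU hV).bound n (pbC (n + 1) (incl (U ∪ V)) γ)
    (by rw [← pbC_cob]; exact mem_relCoch_iff.mp hc) (pb_small h1 h2)
  refine ⟨extC n ψ, (ext_small h3).1, (ext_small h3).2, ?_⟩
  rw [mem_relCoch_iff, map_sub, pbC_cob, pbC_incl_extC, h4, sub_self]

theorem correct' (hU : IsOpen U) (hV : IsOpen V) {n : ℕ} {γ : Coch n X A}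
    (hc : cob n γ ∈ relCoch A (U ∪ V) (n + 1)) (h1 : γ ∈ relCoch A U n)
    (h2 : γ ∈ relCoch A V n) :
    ∃ ψ ∈ relCoch A (U ∪ V) n, cob n ψ = cob n γ := by
  cases n with
  | zero => exact ⟨γ, correct_zero hU hV h1 h2, rfl⟩
  | succ n =>
    obtain ⟨ψ, _, _, h3⟩ := correct hU hV hc h1 h2
    exact ⟨_, h3, by rw [map_sub, cob_cob, sub_zero]⟩

/-! ### The connecting relation -/

/-- The relation `v = δ u`. -/
def Rel (U V : Set X) (m : ℕ) (u : HR m (U ∩ V) A) (v : HR (m + 1) (U ∪ V) A) : Prop :=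
  ∃ (a b : Coch m X A) (_ : a ∈ relCoch A U m) (_ : b ∈ relCoch A V m)
    (h1 : a + b ∈ relCocycles A (U ∩ V) m) (h2 : cob m b ∈ relCocycles A (U ∪ V) (m + 1)),
    HR.mk m ⟨a + b, h1⟩ = u ∧ HR.mk (m + 1) ⟨cob m b, h2⟩ = v

theorem Rel.add {m : ℕ} {u u' : HR m (U ∩ V) A} {v v' : HR (m + 1) (U ∪ V) A}
    (h : Rel U V m u v) (h' : Rel U V m u' v') : Rel U V m (u + u') (v + v') := by
  obtain ⟨a, b, ha, hb, h1, h2, rfl, rfl⟩ := h
  obtain ⟨a', b', ha', hb', h1', h2', rfl, rfl⟩ := h'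
  refine ⟨a + a', b + b', add_mem ha ha', add_mem hb hb', ?_, ?_, ?_, ?_⟩
  · rw [add_add_add_comm]
    exact add_mem h1 h1'
  · rw [map_add]
    exact add_mem h2 h2'
  · rw [← map_add (HR.mk m)]
    congr 1
    exact Subtype.ext (add_add_add_comm _ _ _ _)
  · rw [← map_add (HR.mk (m + 1))]
    congr 1
    exact Subtype.ext (map_add _ _ _)

theorem Rel.neg {m : ℕ} {u : HR m (U ∩ V) A} {v : HR (m + 1) (U ∪ V) A}
    (h : Rel U V m u v) : Rel U V m (-u) (-v) := by
  obtain ⟨a, b, ha, hb, h1, h2, rfl, rfl⟩ := h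
  refine ⟨-a, -b, neg_mem ha, neg_mem hb, ?_, ?_, ?_, ?_⟩
  · rw [← neg_add]
    exact neg_mem h1
  · rw [map_neg]
    exact neg_mem h2
  · rw [← map_neg (HR.mk m)]
    congr 1
    exact Subtype.ext (neg_add _ _).symm
  · rw [← map_neg (HR.mk (m + 1))]
    congr 1
    exact Subtype.ext (map_neg _ _)

theorem Rel.sub {m : ℕ} {u u' : HR m (U ∩ V) A} {v v' : HR (m + 1) (U ∪ V) A}
    (h : Rel U V m u v) (h' : Rel U V m u' v') : Rel U V m (u - u') (v - v') := by
  rw [sub_eq_add_neg, sub_eq_add_neg]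
  exact h.add h'.neg

open Classical in
/-- Setting the values on the simplices in `U` to zero. -/
def cut (U : Set X) (m : ℕ) (z : Coch m X A) : Coch m X A := fun σ => if InS U σ then 0 else z σ

theorem cut_mem (U : Set X) {m : ℕ} (z : Coch m X A) : cut U m z ∈ relCoch A U m :=
  fun σ hσ => by simp [cut, hσ]

theorem sub_cut_mem {m : ℕ} {z : Coch m X A} (hz : z ∈ relCoch A (U ∩ V) m) :
    z - cut U m z ∈ relCoch A V m := by
  intro σ hσ
  change z σ - cut U m z σ = 0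
  by_cases h : InS U σ
  · rw [hz σ (fun t => ⟨h t, hσ t⟩), cut_mem U z σ h, sub_zero]
  · simp [cut, h]

theorem relCoch_mono {S T : Set X} (h : S ⊆ T) (n : ℕ) : relCoch A T n ≤ relCoch A S n :=
  fun _ hφ σ hσ => hφ σ (hσ.mono h)

theorem relCoboundaries_mono {S T : Set X} (h : S ⊆ T) (n : ℕ) :
    relCoboundaries A T n ≤ relCoboundaries A S n := by
  cases n with
  | zero => exact le_rfl
  | succ n =>
    rintro _ ⟨ψ, hψ, rfl⟩
    exact ⟨ψ, relCoch_mono h n hψ, rfl⟩

theorem Rel.total (hU : IsOpen U) (hV : IsOpen V) {m : ℕ} (u : HR m (U ∩ V) A) :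
    ∃ v, Rel U V m u v := by
  obtain ⟨z, rfl⟩ := HR.mk_surjective m u
  have hz : cob m z.1 = 0 := z.2.2
  have h1 := cut_mem U z.1
  have h2 := sub_cut_mem z.2.1
  have h3 : cob m (z.1 - cut U m z.1) ∈ relCoch A U (m + 1) := by
    rw [map_sub, hz, zero_sub]
    exact neg_mem (cob_mem_relCoch h1)
  obtain ⟨ψ, h5, h6, h7⟩ := correct hU hV (γ := cob m (z.1 - cut U m z.1))
    (by rw [cob_cob]; exact zero_mem _) h3 (cob_mem_relCoch h2)
  refine ⟨HR.mk (m + 1) ⟨cob m (z.1 - cut U m z.1 - ψ), ?_, cob_cob m _⟩, cut U m z.1 + ψ,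
    z.1 - cut U m z.1 - ψ, add_mem h1 h5, sub_mem h2 h6, ?_, ?_, ?_, rfl⟩
  · rw [map_sub]
    exact h7
  · have e : cut U m z.1 + ψ + (z.1 - cut U m z.1 - ψ) = z.1 := by abel
    rw [e]
    exact z.2
  · refine ⟨?_, cob_cob m _⟩
    rw [map_sub]
    exact h7
  · congr 1
    apply Subtype.ext
    change cut U m z.1 + ψ + (z.1 - cut U m z.1 - ψ) = z.1
    abel

theorem Rel.eq_zero (hU : IsOpen U) (hV : IsOpen V) {m : ℕ} {v : HR (m + 1) (U ∪ V) A}
    (h : Rel U V m 0 v) : v = 0 := by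
  obtain ⟨a, b, ha, hb, h1, h2, h3, rfl⟩ := h
  rw [HR.mk_eq_zero] at h3 ⊢
  cases m with
  | zero =>
    have h0 : a + b = 0 := h3
    have h4 : b ∈ relCoch A U 0 := by
      rw [← neg_eq_of_add_eq_zero_right h0]
      exact neg_mem ha
    exact ⟨b, correct_zero hU hV h4 hb, rfl⟩
  | succ m =>
    obtain ⟨η, hη, e⟩ := h3
    have e' : cob m η = a + b := e
    have h4 := cut_mem U η
    have h5 := sub_cut_mem hη
    have h6 : b - cob m (η - cut U m η) ∈ relCoch A U (m + 1) := by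
      have e2 : b - cob m (η - cut U m η) = -(a - cob m (cut U m η)) := by
        rw [map_sub, e']
        abel
      rw [e2]
      exact neg_mem (sub_mem ha (cob_mem_relCoch h4))
    have h7 : b - cob m (η - cut U m η) ∈ relCoch A V (m + 1) :=
      sub_mem hb (cob_mem_relCoch h5)
    obtain ⟨ψ, h8, h9⟩ := correct' hU hV (γ := b - cob m (η - cut U m η))
      (by rw [map_sub, cob_cob, sub_zero]; exact h2.1) h6 h7
    refine ⟨ψ, h8, ?_⟩
    rw [h9, map_sub, cob_cob, sub_zero]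

theorem Rel.unique (hU : IsOpen U) (hV : IsOpen V) {m : ℕ} {u : HR m (U ∩ V) A}
    {v v' : HR (m + 1) (U ∪ V) A} (h : Rel U V m u v) (h' : Rel U V m u v') : v = v' := by
  have h0 := h.sub h'
  rw [sub_self] at h0
  exact sub_eq_zero.mp (Rel.eq_zero hU hV h0)

theorem Rel.surj (hU : ∀ n (u : HR n U A), u = 0) (hV : ∀ n (u : HR n V A), u = 0) {m : ℕ}
    (v : HR (m + 1) (U ∪ V) A) : ∃ u, Rel U V m u v := by
  obtain ⟨γ, rfl⟩ := HR.mk_surjective (m + 1) v
  have h1 := hU (m + 1) (HR.mk (m + 1) ⟨γ.1, relCoch_mono subset_union_left _ γ.2.1, γ.2.2⟩)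
  have h2 := hV (m + 1) (HR.mk (m + 1) ⟨γ.1, relCoch_mono subset_union_right _ γ.2.1, γ.2.2⟩)
  rw [HR.mk_eq_zero] at h1 h2
  obtain ⟨a, ha, ea⟩ := h1
  obtain ⟨b, hb, eb⟩ := h2
  have ea' : cob m a = γ.1 := ea
  have eb' : cob m b = γ.1 := eb
  have ha' : a ∈ relCoch A (U ∩ V) m := relCoch_mono inter_subset_left _ ha
  have hb' : b ∈ relCoch A (U ∩ V) m := relCoch_mono inter_subset_right _ hb
  have h3 : -a + b ∈ relCocycles A (U ∩ V) m := by
    refine ⟨(relCoch A (U ∩ V) m).add_mem ((relCoch A (U ∩ V) m).neg_mem ha') hb', ?_⟩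
    change cob m (-a + b) = 0
    rw [map_add, map_neg, ea', eb', neg_add_cancel]
  refine ⟨HR.mk m ⟨-a + b, h3⟩, -a, b, neg_mem ha, hb, h3, ?_, rfl, ?_⟩
  · rw [eb']
    exact γ.2
  · congr 1
    exact Subtype.ext eb'

theorem mem_relCoboundaries_of {S : Set X} (h : ∀ n (u : HR n S A), u = 0) {n : ℕ}
    {z : Coch n X A} (h1 : z ∈ relCoch A S n) (h2 : cob n z = 0) :
    z ∈ relCoboundaries A S n := by
  have := h n (HR.mk n ⟨z, h1, h2⟩)
  rwa [HR.mk_eq_zero] at this

theorem Rel.inj (hU : ∀ n (u : HR n U A), u = 0) (hV : ∀ n (u : HR n V A), u = 0) {m : ℕ}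
    {u : HR m (U ∩ V) A} (h : Rel U V m u 0) : u = 0 := by
  obtain ⟨a, b, ha, hb, h1, h2, rfl, h3⟩ := h
  rw [HR.mk_eq_zero] at h3 ⊢
  obtain ⟨c, hc, e⟩ := h3
  have e' : cob m c = cob m b := e
  have hab : cob m a + cob m b = 0 := by
    rw [← map_add]
    exact h1.2
  have h4 : b - c ∈ relCoboundaries A V m :=
    mem_relCoboundaries_of hV (sub_mem hb (relCoch_mono subset_union_right _ hc))
      (by rw [map_sub, e', sub_self])
  have h5 : a + c ∈ relCoboundaries A U m :=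
    mem_relCoboundaries_of hU (add_mem ha (relCoch_mono subset_union_left _ hc))
      (by rw [map_add, e', hab])
  have e2 : a + b = (a + c) + (b - c) := by abel
  change a + b ∈ _
  rw [e2]
  exact add_mem (relCoboundaries_mono inter_subset_left _ h5)
    (relCoboundaries_mono inter_subset_right _ h4)

/-! ### The connecting homomorphism -/

open Classical in
variable (U V A) in
/-- The connecting homomorphism `H^m(X, U ∩ V) → H^{m+1}(X, U ∪ V)`. -/
def conn (m : ℕ) : HR m (U ∩ V) A →+ HR (m + 1) (U ∪ V) A :=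
  if h : IsOpen U ∧ IsOpen V then
    AddMonoidHom.mk' (fun u => (Rel.total h.1 h.2 u).choose) (fun u u' =>
      Rel.unique h.1 h.2 (Rel.total h.1 h.2 (u + u')).choose_spec
        ((Rel.total h.1 h.2 u).choose_spec.add (Rel.total h.1 h.2 u').choose_spec))
  else 0

theorem conn_spec (hU : IsOpen U) (hV : IsOpen V) {m : ℕ} (u : HR m (U ∩ V) A) :
    Rel U V m u (conn A U V m u) := by
  have h : conn A U V m u = (Rel.total hU hV u).choose := by
    unfold conn
    rw [dif_pos ⟨hU, hV⟩]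
    rfl
  rw [h]
  exact (Rel.total hU hV u).choose_spec

theorem conn_eq (hU : IsOpen U) (hV : IsOpen V) {m : ℕ} {u : HR m (U ∩ V) A}
    {v : HR (m + 1) (U ∪ V) A} (h : Rel U V m u v) : conn A U V m u = v :=
  Rel.unique hU hV (conn_spec hU hV u) h

theorem conn_of_not (h : ¬ (IsOpen U ∧ IsOpen V)) (m : ℕ) : conn A U V m = 0 := by
  unfold conn
  rw [dif_neg h]

theorem conn_bijective (hU : IsOpen U) (hV : IsOpen V) (hU0 : ∀ n (u : HR n U A), u = 0)
    (hV0 : ∀ n (u : HR n V A), u = 0) (m : ℕ) : Function.Bijective (conn A U V m) := by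
  constructor
  · rw [injective_iff_map_eq_zero]
    intro u hu
    have := conn_spec hU hV u
    rw [hu] at this
    exact Rel.inj hU0 hV0 this
  · intro v
    obtain ⟨u, hu⟩ := Rel.surj hU0 hV0 v
    exact ⟨u, conn_eq hU hV hu⟩

theorem Rel.pb (f : C(X, Y)) {U' V' : Set Y} (hU : MapsTo f U U') (hV : MapsTo f V V')
    {m : ℕ} {u : HR m (U' ∩ V') A} {v : HR (m + 1) (U' ∪ V') A} (h : Rel U' V' m u v) :
    Rel U V m (HR.pb f (hU.inter_inter hV) u) (HR.pb f (hU.union_union hV) v) := by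
  obtain ⟨a, b, ha, hb, h1, h2, rfl, rfl⟩ := h
  refine ⟨pbC m f a, pbC m f b, pbC_mem_relCoch f hU ha, pbC_mem_relCoch f hV hb, ?_, ?_, ?_, ?_⟩
  · rw [← map_add]
    exact pbC_mem_relCocycles f (hU.inter_inter hV) h1
  · rw [← pbC_cob]
    exact pbC_mem_relCocycles f (hU.union_union hV) h2
  · rfl
  · rw [HR.pb_mk]
    congr 1

theorem conn_pb (f : C(X, Y)) {U' V' : Set Y} (hU : MapsTo f U U') (hV : MapsTo f V V')
    (oU : IsOpen U) (oV : IsOpen V) (oU' : IsOpen U') (oV' : IsOpen V') {m : ℕ}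
    (u : HR m (U' ∩ V') A) :
    conn A U V m (HR.pb f (hU.inter_inter hV) u) =
      HR.pb f (hU.union_union hV) (conn A U' V' m u) :=
  conn_eq oU oV (Rel.pb f hU hV (conn_spec oU' oV' u))

theorem Rel.cm (g : A →+ B) {m : ℕ} {u : HR m (U ∩ V) A} {v : HR (m + 1) (U ∪ V) A}
    (h : Rel U V m u v) : Rel U V m (HR.cm g u) (HR.cm g v) := by
  obtain ⟨a, b, ha, hb, h1, h2, rfl, rfl⟩ := h
  refine ⟨cmC m g a, cmC m g b, cmC_mem_relCoch g ha, cmC_mem_relCoch g hb, ?_, ?_, ?_, ?_⟩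
  · rw [← map_add]
    exact cmC_mem_relCocycles g h1
  · rw [← cmC_cob]
    exact cmC_mem_relCocycles g h2
  · rw [HR.cm_mk]
    congr 1
    exact Subtype.ext (map_add (cmC m g) a b).symm
  · rw [HR.cm_mk]
    congr 1
    exact Subtype.ext (cmC_cob m g b).symm

theorem conn_cm (g : A →+ B) {m : ℕ} (u : HR m (U ∩ V) A) :
    conn B U V m (HR.cm g u) = HR.cm g (conn A U V m u) := by
  by_cases h : IsOpen U ∧ IsOpen V
  · exact conn_eq h.1 h.2 (Rel.cm g (conn_spec h.1 h.2 u))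
  · rw [conn_of_not h, conn_of_not h, AddMonoidHom.zero_apply, AddMonoidHom.zero_apply, map_zero]

/-! ### Vanishing and bijectivity -/

theorem vanish_of_homotopy {f : C(X, X)} (F : (ContinuousMap.id X).Homotopy f)
    (hF : ∀ t, ∀ s ∈ U, F (t, s) ∈ U) (h : ∀ x, f x ∈ U) {n : ℕ} (u : HR n U A) : u = 0 := by
  have e := HR.pb_eq_of_homotopy F hF (mapsTo_id U) (fun x _ => h x) u
  rw [HR.pb_id] at e
  rw [e]
  obtain ⟨z, rfl⟩ := HR.mk_surjective n u
  rw [HR.pb_mk, HR.mk_eq_zero]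
  have : pbC n f z.1 = 0 := by
    funext σ
    exact z.2.1 _ (fun t => h _)
  change pbC n f z.1 ∈ _
  rw [this]
  exact zero_mem _

theorem pb_bijective_of_homotopy {S : Set X} {T : Set Y} {f : C(X, Y)} {g : C(Y, X)}
    (hf : MapsTo f S T) (hg : MapsTo g T S) (F : (g.comp f).Homotopy (ContinuousMap.id X))
    (hF : ∀ t, ∀ s ∈ S, F (t, s) ∈ S) (G : (f.comp g).Homotopy (ContinuousMap.id Y))
    (hG : ∀ t, ∀ s ∈ T, G (t, s) ∈ T) (n : ℕ) :
    Function.Bijective (HR.pb (n := n) (A := A) f hf) := by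
  refine Function.bijective_iff_has_inverse.mpr ⟨HR.pb g hg, fun u => ?_, fun u => ?_⟩
  · rw [HR.pb_comp, HR.pb_eq_of_homotopy G hG _ (mapsTo_id T), HR.pb_id]
  · rw [HR.pb_comp, HR.pb_eq_of_homotopy F hF _ (mapsTo_id S), HR.pb_id]

end conn

/-! ### The suspension -/

section susp

variable {Z Z' : Type*} [TopologicalSpace Z] [TopologicalSpace Z']
variable {A B : Type*} [AddCommGroup A] [AddCommGroup B]

/-- The lower part. -/
def lo (S : Set Z) : Set (Z × ℝ) := {p | p.1 ∈ S ∨ p.2 < 0}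

/-- The upper part. -/
def up (S : Set Z) : Set (Z × ℝ) := {p | p.1 ∈ S ∨ 0 < p.2}

theorem isOpen_lo {S : Set Z} (h : IsOpen S) : IsOpen (lo S) :=
  (h.preimage continuous_fst).union (isOpen_lt continuous_snd continuous_const)

theorem isOpen_up {S : Set Z} (h : IsOpen S) : IsOpen (up S) :=
  (h.preimage continuous_fst).union (isOpen_lt continuous_const continuous_snd)

theorem lo_vanish (S : Set Z) (n : ℕ) (u : HR n (lo S) A) : u = 0 := by
  refine vanish_of_homotopy (f := ⟨fun p => (p.1, -1), by fun_prop⟩)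
    { toFun := fun q => (q.2.1, (1 - (q.1 : ℝ)) * q.2.2 - q.1)
      continuous_toFun := by fun_prop
      map_zero_left := fun p => by simp
      map_one_left := fun p => by simp } ?_ ?_ u
  · rintro t ⟨z, s⟩ (h | h)
    · exact Or.inl h
    · right
      change (1 - (t : ℝ)) * s - t < 0
      have h' : s < 0 := h
      have h0 := t.2.1
      have h1 := t.2.2
      rcases h1.lt_or_eq with h2 | h2
      · nlinarith
      · rw [h2]
        norm_num
  · intro p
    right
    change (-1 : ℝ) < 0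
    norm_num

theorem up_vanish (S : Set Z) (n : ℕ) (u : HR n (up S) A) : u = 0 := by
  refine vanish_of_homotopy (f := ⟨fun p => (p.1, 1), by fun_prop⟩)
    { toFun := fun q => (q.2.1, (1 - (q.1 : ℝ)) * q.2.2 + q.1)
      continuous_toFun := by fun_prop
      map_zero_left := fun p => by simp
      map_one_left := fun p => by simp } ?_ ?_ u
  · rintro t ⟨z, s⟩ (h | h)
    · exact Or.inl h
    · right
      change 0 < (1 - (t : ℝ)) * s + t
      have h' : 0 < s := h
      have h0 := t.2.1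
      have h1 := t.2.2
      rcases h1.lt_or_eq with h2 | h2
      · nlinarith
      · rw [h2]
        norm_num
  · intro p
    right
    change (0 : ℝ) < 1
    norm_num

/-- The projection. -/
def pr (Z : Type*) [TopologicalSpace Z] : C(Z × ℝ, Z) := ⟨Prod.fst, continuous_fst⟩

/-- The zero section. -/
def zs (Z : Type*) [TopologicalSpace Z] : C(Z, Z × ℝ) := ⟨fun z => (z, 0), by fun_prop⟩

omit [TopologicalSpace Z] in
theorem mem_inter {S : Set Z} {p : Z × ℝ} (h : p ∈ lo S ∩ up S) : p.1 ∈ S := by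
  rcases h with ⟨h1 | h1, h2 | h2⟩
  · exact h1
  · exact h1
  · exact h2
  · exact absurd h1 (lt_asymm h2)

theorem mapsTo_pr (S : Set Z) : MapsTo (pr Z) (lo S ∩ up S) S := fun _ h => mem_inter h

theorem mapsTo_zs (S : Set Z) : MapsTo (zs Z) S (lo S ∩ up S) :=
  fun _ h => ⟨Or.inl h, Or.inl h⟩

theorem pr_bijective (S : Set Z) (n : ℕ) :
    Function.Bijective (HR.pb (n := n) (A := A) (pr Z) (mapsTo_pr S)) := by
  refine pb_bijective_of_homotopy (g := zs Z) (mapsTo_pr S) (mapsTo_zs S)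
    { toFun := fun q => (q.2.1, (q.1 : ℝ) * q.2.2)
      continuous_toFun := by fun_prop
      map_zero_left := fun p => by
        ext
        · rfl
        · simp [zs, pr]
      map_one_left := fun p => by simp } ?_
    { toFun := fun q => q.2
      continuous_toFun := by fun_prop
      map_zero_left := fun p => rfl
      map_one_left := fun p => rfl } (fun t s hs => hs) n
  rintro t ⟨z, s⟩ h
  have h1 : z ∈ S := mem_inter h
  exact ⟨Or.inl h1, Or.inl h1⟩

variable (A) in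
/-- The suspension homomorphism. -/
def step (S : Set Z) (m : ℕ) : HR m S A →+ HR (m + 1) (lo S ∪ up S) A :=
  (conn A (lo S) (up S) m).comp (HR.pb (pr Z) (mapsTo_pr S))

theorem step_bijective {S : Set Z} (h : IsOpen S) (m : ℕ) : Function.Bijective (step A S m) :=
  (conn_bijective (isOpen_lo h) (isOpen_up h) (lo_vanish S) (up_vanish S) m).comp
    (pr_bijective S m)

/-- The product with the identity of `ℝ`. -/
def xr (f : C(Z, Z')) : C(Z × ℝ, Z' × ℝ) := ⟨fun p => (f p.1, p.2), by fun_prop⟩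

theorem mapsTo_lo {f : C(Z, Z')} {S : Set Z} {S' : Set Z'} (h : MapsTo f S S') :
    MapsTo (xr f) (lo S) (lo S') := by
  rintro p (hp | hp)
  · exact Or.inl (h hp)
  · exact Or.inr hp

theorem mapsTo_up {f : C(Z, Z')} {S : Set Z} {S' : Set Z'} (h : MapsTo f S S') :
    MapsTo (xr f) (up S) (up S') := by
  rintro p (hp | hp)
  · exact Or.inl (h hp)
  · exact Or.inr hp

theorem step_pb {f : C(Z, Z')} {S : Set Z} {S' : Set Z'} (h : MapsTo f S S') (oS : IsOpen S)
    (oS' : IsOpen S') {m : ℕ} (u : HR m S' A) :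
    step A S m (HR.pb f h u) =
      HR.pb (xr f) ((mapsTo_lo h).union_union (mapsTo_up h)) (step A S' m u) := by
  change conn A (lo S) (up S) m (HR.pb (pr Z) (mapsTo_pr S) (HR.pb f h u)) = _
  rw [HR.pb_comp]
  have e := conn_pb (A := A) (xr f) (mapsTo_lo h) (mapsTo_up h) (isOpen_lo oS) (isOpen_up oS)
    (isOpen_lo oS') (isOpen_up oS') (HR.pb (pr Z') (mapsTo_pr S') u)
  rw [HR.pb_comp] at e
  exact e

theorem step_cm (g : A →+ B) {S : Set Z} {m : ℕ} (u : HR m S A) :
    step B S m (HR.cm g u) = HR.cm g (step A S m u) := by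
  change conn B (lo S) (up S) m (HR.pb (pr Z) (mapsTo_pr S) (HR.cm g u)) = _
  rw [HR.pb_cm, conn_cm]
  rfl

end susp

/-! ### Iteration -/

theorem isOpen_thomSet {d : ℕ} {Z : Type} [TopologicalSpace Z] {S : Set Z} (h : IsOpen S) :
    IsOpen (thomSet d S) :=
  (h.preimage continuous_fst).union (isOpen_ne_fun continuous_snd continuous_const)

/-- `Z × ℝ^{d+1} → (Z × ℝ^d) × ℝ`. -/
def sp (d : ℕ) (Z : Type) [TopologicalSpace Z] :
    C(Z × (Fin (d + 1) → ℝ), (Z × (Fin d → ℝ)) × ℝ) :=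
  ⟨fun p => ((p.1, fun i => p.2 i.succ), p.2 0), by fun_prop⟩

/-- The inverse of `sp`. -/
def sp' (d : ℕ) (Z : Type) [TopologicalSpace Z] :
    C((Z × (Fin d → ℝ)) × ℝ, Z × (Fin (d + 1) → ℝ)) :=
  ⟨fun p => (p.1.1, Fin.cons p.2 p.1.2), by
    refine (continuous_fst.comp continuous_fst).prodMk ?_
    refine continuous_pi fun i => ?_
    refine Fin.cases ?_ (fun j => ?_) i
    · simpa using continuous_snd
    · simp only [Fin.cons_succ]
      fun_prop⟩

theorem mapsTo_sp (d : ℕ) {Z : Type} [TopologicalSpace Z] (S : Set Z) :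
    MapsTo (sp d Z) (thomSet (d + 1) S) (lo (thomSet d S) ∪ up (thomSet d S)) := by
  rintro ⟨z, t⟩ (h | h)
  · exact Or.inl (Or.inl (Or.inl h))
  · by_cases h0 : t 0 = 0
    · refine Or.inl (Or.inl (Or.inr ?_))
      intro h1
      apply h
      funext i
      refine Fin.cases h0 (fun j => ?_) i
      exact congrFun h1 j
    · rcases lt_or_gt_of_ne h0 with h1 | h1
      · exact Or.inl (Or.inr h1)
      · exact Or.inr (Or.inr h1)

theorem mapsTo_sp' (d : ℕ) {Z : Type} [TopologicalSpace Z] (S : Set Z) :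
    MapsTo (sp' d Z) (lo (thomSet d S) ∪ up (thomSet d S)) (thomSet (d + 1) S) := by
  have h1 : ∀ (z : Z) (t : Fin d → ℝ) (r : ℝ), (z, t) ∈ thomSet d S →
      ((z, Fin.cons r t) : Z × (Fin (d + 1) → ℝ)) ∈ thomSet (d + 1) S := by
    rintro z t r (h | h)
    · exact Or.inl h
    · refine Or.inr fun h0 => h ?_
      funext i
      have := congrFun h0 i.succ
      simpa using this
  have h2 : ∀ (z : Z) (t : Fin d → ℝ) (r : ℝ), r ≠ 0 →
      ((z, Fin.cons r t) : Z × (Fin (d + 1) → ℝ)) ∈ thomSet (d + 1) S := by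
    intro z t r h
    refine Or.inr fun h0 => h ?_
    have := congrFun h0 0
    simpa using this
  rintro ⟨⟨z, t⟩, r⟩ ((h | h) | (h | h))
  · exact h1 z t r h
  · exact h2 z t r (ne_of_lt h)
  · exact h1 z t r h
  · exact h2 z t r (ne_of_gt h)

theorem sp_bijective (d : ℕ) {Z : Type} [TopologicalSpace Z] (S : Set Z) {A : Type*}
    [AddCommGroup A] (n : ℕ) :
    Function.Bijective (HR.pb (n := n) (A := A) (sp d Z) (mapsTo_sp d S)) := by
  have e1 : (sp' d Z).comp (sp d Z) = ContinuousMap.id _ := by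
    ext p i
    · rfl
    · refine Fin.cases ?_ (fun j => ?_) i
      · rfl
      · rfl
  have e2 : (sp d Z).comp (sp' d Z) = ContinuousMap.id _ := by
    ext p i
    · rfl
    · rfl
    · rfl
  refine pb_bijective_of_homotopy (g := sp' d Z) (mapsTo_sp d S) (mapsTo_sp' d S)
    (F := (ContinuousMap.Homotopy.refl _).cast e1.symm rfl) ?_
    (G := (ContinuousMap.Homotopy.refl _).cast e2.symm rfl) ?_ n
  · intro t s hs
    exact hs
  · intro t s hs
    exact hs

/-- The projection of `Z × ℝ^0`. -/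
def p0 (Z : Type) [TopologicalSpace Z] : C(Z × (Fin 0 → ℝ), Z) := ⟨Prod.fst, continuous_fst⟩

/-- The inverse. -/
def i0 (Z : Type) [TopologicalSpace Z] : C(Z, Z × (Fin 0 → ℝ)) := ⟨fun z => (z, 0), by fun_prop⟩

theorem mapsTo_p0 {Z : Type} [TopologicalSpace Z] (S : Set Z) : MapsTo (p0 Z) (thomSet 0 S) S := by
  rintro ⟨z, t⟩ (h | h)
  · exact h
  · exact absurd (Subsingleton.elim _ _) h

theorem mapsTo_i0 {Z : Type} [TopologicalSpace Z] (S : Set Z) : MapsTo (i0 Z) S (thomSet 0 S) :=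
  fun _ h => Or.inl h

theorem p0_bijective {Z : Type} [TopologicalSpace Z] (S : Set Z) {A : Type*}
    [AddCommGroup A] (n : ℕ) :
    Function.Bijective (HR.pb (n := n) (A := A) (p0 Z) (mapsTo_p0 S)) := by
  have e1 : (i0 Z).comp (p0 Z) = ContinuousMap.id _ := by
    ext p i
    · rfl
    · exact i.elim0
  have e2 : (p0 Z).comp (i0 Z) = ContinuousMap.id _ := rfl
  refine pb_bijective_of_homotopy (g := i0 Z) (mapsTo_p0 S) (mapsTo_i0 S)
    (F := (ContinuousMap.Homotopy.refl _).cast e1.symm rfl) ?_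
    (G := (ContinuousMap.Homotopy.refl _).cast e2.symm rfl) ?_ n
  · intro t s hs
    exact hs
  · intro t s hs
    exact hs

/-- The Thom homomorphism. -/
def Theta : ∀ (d : ℕ) (Z : Type) [TopologicalSpace Z] (S : Set Z) (m : ℕ) (A : Type)
    [AddCommGroup A], HR m S A →+ HR (m + d) (thomSet d S) A
  | 0, Z, _, S, _, _, _ => HR.pb (p0 Z) (mapsTo_p0 S)
  | (d + 1), Z, _, S, m, A, _ =>
    (HR.pb (sp d Z) (mapsTo_sp d S)).comp
      ((step A (thomSet d S) (m + d)).comp (Theta d Z S m A))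

theorem Theta_bijective (d : ℕ) (Z : Type) [TopologicalSpace Z] (S : Set Z) (m : ℕ) (A : Type)
    [AddCommGroup A] (h : IsOpen S) : Function.Bijective (Theta d Z S m A) := by
  induction d with
  | zero => exact p0_bijective S m
  | succ d ih => exact (sp_bijective d S _).comp ((step_bijective (isOpen_thomSet h) _).comp ih)

theorem Theta_pb (d : ℕ) (Z Z' : Type) [TopologicalSpace Z] [TopologicalSpace Z'] (f : C(Z, Z'))
    (S : Set Z) (S' : Set Z') (h : MapsTo f S S') (oS : IsOpen S) (oS' : IsOpen S') (m : ℕ)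
    (A : Type) [AddCommGroup A] (u : HR m S' A) :
    Theta d Z S m A (HR.pb f h u) = HR.pb (prodId d f) (prodId_mapsTo d h) (Theta d Z' S' m A u) := by
  induction d with
  | zero =>
    change HR.pb (p0 Z) (mapsTo_p0 S) (HR.pb f h u) =
      HR.pb (prodId 0 f) (prodId_mapsTo 0 h) (HR.pb (p0 Z') (mapsTo_p0 S') u)
    rw [HR.pb_comp, HR.pb_comp]
    rfl
  | succ d ih =>
    change HR.pb (sp d Z) (mapsTo_sp d S) (step A (thomSet d S) (m + d)
      (Theta d Z S m A (HR.pb f h u))) = HR.pb (prodId (d + 1) f) (prodId_mapsTo (d + 1) h)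
        (HR.pb (sp d Z') (mapsTo_sp d S') (step A (thomSet d S') (m + d) (Theta d Z' S' m A u)))
    rw [ih, step_pb _ (isOpen_thomSet oS) (isOpen_thomSet oS'), HR.pb_comp, HR.pb_comp]
    rfl

theorem Theta_cm (d : ℕ) (Z : Type) [TopologicalSpace Z] (S : Set Z) (m : ℕ) (A A' : Type)
    [AddCommGroup A] [AddCommGroup A'] (g : A →+ A') (u : HR m S A) :
    Theta d Z S m A' (HR.cm g u) = HR.cm g (Theta d Z S m A u) := by
  induction d with
  | zero => exact HR.pb_cm _ _ _ _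
  | succ d ih =>
    change HR.pb (sp d Z) (mapsTo_sp d S) (step A' (thomSet d S) (m + d)
      (Theta d Z S m A' (HR.cm g u))) = HR.cm g (HR.pb (sp d Z) (mapsTo_sp d S)
        (step A (thomSet d S) (m + d) (Theta d Z S m A u)))
    rw [ih, step_cm, HR.pb_cm]

theorem zero_vanish {Z : Type} [TopologicalSpace Z] (S : Set Z) {A : Type*} [AddCommGroup A]
    (u : HR 0 (lo S ∪ up S) A) : u = 0 := by
  obtain ⟨z, rfl⟩ := HR.mk_surjective 0 u
  have := mem_relCoboundaries_of (A := A) (lo_vanish S) (z := z.1)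
    (relCoch_mono subset_union_left _ z.2.1) z.2.2
  rw [HR.mk_eq_zero]
  exact this

theorem low_vanish (d : ℕ) (Z : Type) [TopologicalSpace Z] (S : Set Z) (m : ℕ) (A : Type)
    [AddCommGroup A] (h : IsOpen S) (hm : m < d) (u : HR m (thomSet d S) A) : u = 0 := by
  induction d generalizing m with
  | zero => omega
  | succ d ih =>
    obtain ⟨v, rfl⟩ := (sp_bijective d S m).2 u
    cases m with
    | zero => rw [zero_vanish _ v, map_zero]
    | succ m =>
      obtain ⟨w, rfl⟩ := (step_bijective (isOpen_thomSet h) m).2 v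
      rw [ih m (by omega) w, map_zero, map_zero]

/-- [TH] -/
theorem thomStatement : ThomStatement :=
  ⟨Theta, fun d Z _ S m A _ h => Theta_bijective d Z S m A h,
    fun d Z Z' _ _ f S S' h oS oS' m A _ u => Theta_pb d Z Z' f S S' h oS oS' m A u,
    fun d Z _ S m A A' _ _ g u => Theta_cm d Z S m A A' g u,
    fun d Z _ S m A _ h hm u => low_vanish d Z S m A h hm u⟩

end

end Pool.Agent.Lib.MP_89fcdb_gt.TH27
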