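import Pool.Agent.Lib.MP_904b2a_gt.Coh

/-!
# MP_89fcdb_gt: the products `∪_i` in a few fixed degrees, modulo 2

A bilinear natural operation on cochains modulo 2 is given by a list of pairs of faces.  The
identities for the products `∪_2`, `∪_3`, `∪_4` which are used are reduced to finite checks.
-/

open scoped BigOperators
open Pool.Agent.Lib.MP_904b2a_gt

namespace Pool.Agent.Lib.MP_89fcdb_gt.H27

/-- The map of vertices given by a list. -/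
def vm (p n : ℕ) (l : List ℕ) : Fin (p + 1) → Fin (n + 1) :=
  fun k => ⟨min (l.getD k 0) n, by omega⟩

theorem vm_val (p n : ℕ) (l : List ℕ) (k : Fin (p + 1)) :
    ((vm p n l k : Fin (n + 1)) : ℕ) = min (l.getD k 0) n := rfl

/-- `l` lists `p + 1` vertices of the `n`-simplex. -/
def ok (p n : ℕ) (l : List ℕ) : Prop := l.length = p + 1 ∧ ∀ x ∈ l, x ≤ n

instance (p n : ℕ) (l : List ℕ) : Decidable (ok p n l) := by unfold ok; infer_instance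

/-- shift over the vertex `i` -/
def sh (i v : ℕ) : ℕ := if v < i then v else v + 1

theorem fv_comp_vm {p n : ℕ} {l : List ℕ} (h : ok p n l) (i : ℕ) :
    fv n i ∘ vm p n l = vm p (n + 1) (l.map (sh i)) := by
  funext k
  apply Fin.ext
  have hk : (k : ℕ) < l.length := by rw [h.1]; exact k.2
  simp only [Function.comp, fv_val, vm_val]
  rw [List.getD_eq_getElem _ _ hk, List.getD_eq_getElem _ _ (by simpa using hk),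
    List.getElem_map]
  have h2 := h.2 _ (List.getElem_mem hk)
  unfold sh
  rw [min_eq_left h2]
  split_ifs <;> omega

theorem vm_comp_fv {p n : ℕ} {l : List ℕ} (h : ok (p + 1) n l) {k : ℕ} (hk : k ≤ p + 1) :
    vm (p + 1) n l ∘ fv p k = vm p n (l.eraseIdx k) := by
  funext j
  apply Fin.ext
  have h1 := h.1
  have hj := j.2
  simp only [Function.comp, fv_val, vm_val]
  have hl : (l.eraseIdx k).length = p + 1 := by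
    rw [List.length_eraseIdx, if_pos (by omega)]; omega
  rw [List.getD_eq_getElem (l.eraseIdx k) _ (by omega), List.getElem_eraseIdx]
  split_ifs with h3
  · rw [List.getD_eq_getElem _ _ (by omega)]
  · rw [List.getD_eq_getElem _ _ (by omega)]

variable {X Y : Type*} [TopologicalSpace X] [TopologicalSpace Y]

/-- The bilinear operation given by a list of pairs of faces. -/
noncomputable def bil (p q n : ℕ) (L : List (List ℕ × List ℕ)) (φ : Coch p X (ZMod 2)) (ψ : Coch q X (ZMod 2)) :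
    Coch n X (ZMod 2) :=
  fun σ => (L.map (fun ab => φ (σ.comp (smap (vm p n ab.1))) *
    ψ (σ.comp (smap (vm q n ab.2))))).sum

theorem bil_add_left (p q n : ℕ) (L : List (List ℕ × List ℕ)) (φ φ' : Coch p X (ZMod 2))
    (ψ : Coch q X (ZMod 2)) : bil p q n L (φ + φ') ψ = bil p q n L φ ψ + bil p q n L φ' ψ := by
  funext σ
  simp only [bil, Pi.add_apply, add_mul]
  exact List.sum_map_add

theorem bil_add_right (p q n : ℕ) (L : List (List ℕ × List ℕ)) (φ : Coch p X (ZMod 2))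
    (ψ ψ' : Coch q X (ZMod 2)) : bil p q n L φ (ψ + ψ') = bil p q n L φ ψ + bil p q n L φ ψ' := by
  funext σ
  simp only [bil, Pi.add_apply, mul_add]
  exact List.sum_map_add

theorem bil_zero_left (p q n : ℕ) (L : List (List ℕ × List ℕ)) (ψ : Coch q X (ZMod 2)) :
    bil p q n L (0 : Coch p X (ZMod 2)) ψ = 0 := by
  funext σ
  simp [bil]

theorem bil_zero_right (p q n : ℕ) (L : List (List ℕ × List ℕ)) (φ : Coch p X (ZMod 2)) :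
    bil p q n L φ (0 : Coch q X (ZMod 2)) = 0 := by
  funext σ
  simp [bil]

theorem bil_append (p q n : ℕ) (L L' : List (List ℕ × List ℕ)) (φ : Coch p X (ZMod 2))
    (ψ : Coch q X (ZMod 2)) : bil p q n (L ++ L') φ ψ = bil p q n L φ ψ + bil p q n L' φ ψ := by
  funext σ
  simp [bil]

theorem bil_swap (p q n : ℕ) (L : List (List ℕ × List ℕ)) (φ : Coch p X (ZMod 2))
    (ψ : Coch q X (ZMod 2)) : bil q p n L ψ φ = bil p q n (L.map Prod.swap) φ ψ := by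
  funext σ
  simp only [bil, List.map_map, Function.comp_def, Prod.fst_swap, Prod.snd_swap]
  simp only [mul_comm]

theorem pbC_bil (p q n : ℕ) (L : List (List ℕ × List ℕ)) (f : C(X, Y)) (φ : Coch p Y (ZMod 2))
    (ψ : Coch q Y (ZMod 2)) :
    pbC n f (bil p q n L φ ψ) = bil p q n L (pbC p f φ) (pbC q f ψ) := rfl

theorem neg_one_pow_smul (i : ℕ) (x : ZMod 2) : (-1 : ℤ) ^ i • x = x := by
  rcases Nat.even_or_odd i with h | h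
  · rw [h.neg_one_pow, one_smul]
  · rw [h.neg_one_pow]
    simp [CharTwo.neg_eq]

theorem cob_two (n : ℕ) (φ : Coch n X (ZMod 2)) (σ : C(Simp (n + 1), X)) :
    cob n φ σ = ((List.range (n + 2)).map (fun i => φ (σ.comp (smap (fv n i))))).sum := by
  rw [cob_apply, ← List.sum_toFinset]
  · simp only [neg_one_pow_smul, List.toFinset_range]
  · exact List.nodup_range

theorem sum_map_flatMap {α β : Type*} (L : List α) (f : α → List β) (g : β → ZMod 2) :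
    ((L.flatMap f).map g).sum = (L.map fun a => ((f a).map g).sum).sum := by
  induction L with
  | nil => rfl
  | cons a t ih => simp [ih]

/-- the list of `cob ∘ bil` -/
def dOut (n : ℕ) (L : List (List ℕ × List ℕ)) : List (List ℕ × List ℕ) :=
  (List.range (n + 2)).flatMap fun i => L.map fun ab => (ab.1.map (sh i), ab.2.map (sh i))

theorem cob_bil {p q n : ℕ} {L : List (List ℕ × List ℕ)} (h : ∀ ab ∈ L, ok p n ab.1 ∧ ok q n ab.2)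
    (φ : Coch p X (ZMod 2)) (ψ : Coch q X (ZMod 2)) :
    cob n (bil p q n L φ ψ) = bil p q (n + 1) (dOut n L) φ ψ := by
  funext σ
  rw [cob_two]
  simp only [bil, dOut, sum_map_flatMap, List.map_map]
  congr 1
  refine List.map_congr_left fun i _ => ?_
  congr 1
  refine List.map_congr_left fun ab hab => ?_
  simp only [Function.comp, ContinuousMap.comp_assoc, smap_comp]
  rw [fv_comp_vm (h ab hab).1, fv_comp_vm (h ab hab).2]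

/-- the list of `bil (cob φ) ψ` -/
def dL (p : ℕ) (L : List (List ℕ × List ℕ)) : List (List ℕ × List ℕ) :=
  L.flatMap fun ab => (List.range (p + 2)).map fun k => (ab.1.eraseIdx k, ab.2)

/-- the list of `bil φ (cob ψ)` -/
def dR (q : ℕ) (L : List (List ℕ × List ℕ)) : List (List ℕ × List ℕ) :=
  L.flatMap fun ab => (List.range (q + 2)).map fun k => (ab.1, ab.2.eraseIdx k)

theorem bil_cob_left {p q n : ℕ} {L : List (List ℕ × List ℕ)}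
    (h : ∀ ab ∈ L, ok (p + 1) n ab.1) (φ : Coch p X (ZMod 2)) (ψ : Coch q X (ZMod 2)) :
    bil (p + 1) q n L (cob p φ) ψ = bil p q n (dL p L) φ ψ := by
  funext σ
  simp only [bil, dL, sum_map_flatMap, List.map_map]
  congr 1
  refine List.map_congr_left fun ab hab => ?_
  rw [cob_two, ← List.sum_map_mul_right]
  congr 1
  refine List.map_congr_left fun k hk => ?_
  have hk' : k ≤ p + 1 := by have := List.mem_range.1 hk; omega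
  simp only [Function.comp, ContinuousMap.comp_assoc, smap_comp]
  rw [vm_comp_fv (h ab hab) hk']

theorem bil_cob_right {p q n : ℕ} {L : List (List ℕ × List ℕ)}
    (h : ∀ ab ∈ L, ok (q + 1) n ab.2) (φ : Coch p X (ZMod 2)) (ψ : Coch q X (ZMod 2)) :
    bil p (q + 1) n L φ (cob q ψ) = bil p q n (dR q L) φ ψ := by
  funext σ
  simp only [bil, dR, sum_map_flatMap, List.map_map]
  congr 1
  refine List.map_congr_left fun ab hab => ?_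
  rw [cob_two, ← List.sum_map_mul_left]
  congr 1
  refine List.map_congr_left fun k hk => ?_
  have hk' : k ≤ q + 1 := by have := List.mem_range.1 hk; omega
  simp only [Function.comp, ContinuousMap.comp_assoc, smap_comp]
  rw [vm_comp_fv (h ab hab) hk']

/-! ### The finite check -/

/-- the parity of the multiplicities, as a number -/
def par : List ℕ → ℕ
  | [] => 0
  | x :: t => Nat.xor (2 ^ x) (par t)

theorem testBit_par (L : List ℕ) (k : ℕ) : (par L).testBit k = decide (L.count k % 2 = 1) := by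
  induction L with
  | nil => simp [par]
  | cons x t ih =>
    have h1 : par (x :: t) = 2 ^ x ^^^ par t := rfl
    rw [h1, Nat.testBit_xor, ih, Nat.testBit_two_pow, List.count_cons]
    by_cases h : x = k
    · subst h
      simp only [decide_true, Bool.true_xor, beq_self_eq_true, if_true]
      rcases Nat.mod_two_eq_zero_or_one (t.count x) with h2 | h2
      · have : (t.count x + 1) % 2 = 1 := by omega
        simp [h2, this]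
      · have : (t.count x + 1) % 2 = 0 := by omega
        simp [h2, this]
    · simp [h]

theorem count_of_par {L : List ℕ} (h : par L = 0) (k : ℕ) : L.count k % 2 = 0 := by
  have h1 := testBit_par L k
  rw [h, Nat.zero_testBit] at h1
  have h2 : ¬ (L.count k % 2 = 1) := by simpa using h1.symm
  omega

theorem sum_map_eq_zero_of_count {α : Type*} [DecidableEq α] (L : List α) (f : α → ZMod 2)
    (h : ∀ x ∈ L, L.count x % 2 = 0) : (L.map f).sum = 0 := by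
  rw [Finset.sum_list_map_count]
  refine Finset.sum_eq_zero fun x hx => ?_
  have h1 := h x (List.mem_toFinset.1 hx)
  rw [nsmul_eq_mul, (ZMod.natCast_eq_zero_iff _ 2).2 (Nat.dvd_of_mod_eq_zero h1), zero_mul]

/-- code of a list of vertices -/
def enc : List ℕ → ℕ
  | [] => 0
  | v :: t => 2 ^ v + enc t

/-- the list of vertices of a code -/
def bits (m : ℕ) : List ℕ := [0, 1, 2, 3, 4, 5, 6, 7, 8].filter fun v => m.testBit v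

/-- code of a pair -/
def code (ab : List ℕ × List ℕ) : ℕ := enc ab.1 + 512 * enc ab.2

/-- pair of a code -/
def dec (m : ℕ) : List ℕ × List ℕ := (bits (m % 512), bits (m / 512))

/-- every pair of `L` occurs an even number of times -/
def chk (L : List (List ℕ × List ℕ)) : Bool :=
  (L.all fun ab => decide (dec (code ab) = ab)) && decide (par (L.map code) = 0)

theorem bil_eq_zero_of_chk {p q n : ℕ} {L : List (List ℕ × List ℕ)} (h : chk L = true)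
    (φ : Coch p X (ZMod 2)) (ψ : Coch q X (ZMod 2)) : bil p q n L φ ψ = 0 := by
  funext σ
  simp only [chk, Bool.and_eq_true, List.all_eq_true, decide_eq_true_eq] at h
  have h1 := sum_map_eq_zero_of_count (L.map code)
    (fun m => φ (σ.comp (smap (vm p n (dec m).1))) * ψ (σ.comp (smap (vm q n (dec m).2))))
    (fun x _ => count_of_par h.2 x)
  rw [List.map_map] at h1
  rw [Pi.zero_apply, ← h1, bil]
  congr 1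
  refine List.map_congr_left fun ab hab => ?_
  simp only [Function.comp, h.1 ab hab]

/-- all pairs of the list are pairs of faces -/
def okL (p q n : ℕ) (L : List (List ℕ × List ℕ)) : Prop := ∀ ab ∈ L, ok p n ab.1 ∧ ok q n ab.2

instance (p q n : ℕ) (L : List (List ℕ × List ℕ)) : Decidable (okL p q n L) := by
  unfold okL; infer_instance

/-- A coboundary formula from a finite check. -/
theorem cob_formula {p q n : ℕ} {L0 L1 L2 L3 L4 : List (List ℕ × List ℕ)}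
    (h0 : okL p q n L0) (h1 : okL (p + 1) q (n + 1) L1)
    (h2 : okL p (q + 1) (n + 1) L2)
    (h : chk (dOut n L0 ++ dL p L1 ++ dR q L2 ++ L3 ++ L4.map Prod.swap) = true)
    (φ : Coch p X (ZMod 2)) (ψ : Coch q X (ZMod 2)) :
    cob n (bil p q n L0 φ ψ) = bil (p + 1) q (n + 1) L1 (cob p φ) ψ +
      bil p (q + 1) (n + 1) L2 φ (cob q ψ) + bil p q (n + 1) L3 φ ψ +
      bil q p (n + 1) L4 ψ φ := by
  have e := bil_eq_zero_of_chk (X := X) (p := p) (q := q) (n := n + 1) h φ ψ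
  simp only [bil_append] at e
  rw [← cob_bil h0, ← bil_cob_left (fun ab hab => (h1 ab hab).1),
    ← bil_cob_right (fun ab hab => (h2 ab hab).2), ← bil_swap] at e
  have e2 : ∀ a b c d f : Coch (n + 1) X (ZMod 2), a + b + c + d + f = 0 → a = b + c + d + f := by
    intro a b c d f h
    funext σ
    have := congrFun h σ
    simp only [Pi.add_apply, Pi.zero_apply] at this ⊢
    generalize a σ = a at *
    generalize b σ = b at *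
    generalize c σ = c at *
    generalize d σ = d at *
    generalize f σ = f at *
    revert a b c d f
    decide
  exact e2 _ _ _ _ _ e

/-! ### The products -/

/-- the pairs of faces of `∪_4` on `C^5 × C^5` -/
def pr556 : List (List ℕ × List ℕ) :=
  [([0, 1, 3, 4, 5, 6], [1, 2, 3, 4, 5, 6]),
   ([0, 1, 2, 3, 5, 6], [1, 2, 3, 4, 5, 6]),
   ([0, 1, 2, 3, 4, 5], [1, 2, 3, 4, 5, 6]),
   ([0, 2, 3, 4, 5, 6], [0, 1, 2, 4, 5, 6]),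
   ([0, 2, 3, 4, 5, 6], [0, 1, 2, 3, 4, 6]),
   ([0, 1, 2, 3, 5, 6], [0, 1, 3, 4, 5, 6]),
   ([0, 1, 2, 3, 4, 5], [0, 1, 3, 4, 5, 6]),
   ([0, 1, 2, 4, 5, 6], [0, 1, 2, 3, 4, 6]),
   ([0, 1, 2, 3, 4, 5], [0, 1, 2, 3, 5, 6])]

/-- the pairs of faces of `∪_4` on `C^5 × C^6` -/
def pr567 : List (List ℕ × List ℕ) :=
  [([0, 1, 4, 5, 6, 7], [1, 2, 3, 4, 5, 6, 7]),
   ([0, 1, 3, 4, 6, 7], [1, 2, 3, 4, 5, 6, 7]),
   ([0, 1, 3, 4, 5, 6], [1, 2, 3, 4, 5, 6, 7]),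
   ([0, 1, 2, 3, 6, 7], [1, 2, 3, 4, 5, 6, 7]),
   ([0, 1, 2, 3, 5, 6], [1, 2, 3, 4, 5, 6, 7]),
   ([0, 1, 2, 3, 4, 5], [1, 2, 3, 4, 5, 6, 7]),
   ([0, 3, 4, 5, 6, 7], [0, 1, 2, 3, 5, 6, 7]),
   ([0, 3, 4, 5, 6, 7], [0, 1, 2, 3, 4, 5, 7]),
   ([0, 2, 3, 4, 6, 7], [0, 1, 2, 4, 5, 6, 7]),
   ([0, 2, 3, 4, 5, 6], [0, 1, 2, 4, 5, 6, 7]),
   ([0, 2, 3, 5, 6, 7], [0, 1, 2, 3, 4, 5, 7]),
   ([0, 2, 3, 4, 5, 6], [0, 1, 2, 3, 4, 6, 7]),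
   ([0, 1, 2, 3, 6, 7], [0, 1, 3, 4, 5, 6, 7]),
   ([0, 1, 2, 3, 5, 6], [0, 1, 3, 4, 5, 6, 7]),
   ([0, 1, 2, 3, 4, 5], [0, 1, 3, 4, 5, 6, 7]),
   ([0, 1, 2, 5, 6, 7], [0, 1, 2, 3, 4, 5, 7]),
   ([0, 1, 2, 4, 5, 6], [0, 1, 2, 3, 4, 6, 7]),
   ([0, 1, 2, 3, 4, 5], [0, 1, 2, 3, 5, 6, 7])]

/-- the pairs of faces of `∪_4` on `C^6 × C^5` -/
def pr657 : List (List ℕ × List ℕ) :=
  [([0, 1, 2, 4, 5, 6, 7], [2, 3, 4, 5, 6, 7]),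
   ([0, 1, 2, 3, 4, 6, 7], [2, 3, 4, 5, 6, 7]),
   ([0, 1, 2, 3, 4, 5, 6], [2, 3, 4, 5, 6, 7]),
   ([0, 1, 3, 4, 5, 6, 7], [1, 2, 3, 5, 6, 7]),
   ([0, 1, 3, 4, 5, 6, 7], [1, 2, 3, 4, 5, 7]),
   ([0, 1, 2, 3, 4, 6, 7], [1, 2, 4, 5, 6, 7]),
   ([0, 1, 2, 3, 4, 5, 6], [1, 2, 4, 5, 6, 7]),
   ([0, 1, 2, 3, 5, 6, 7], [1, 2, 3, 4, 5, 7]),
   ([0, 1, 2, 3, 4, 5, 6], [1, 2, 3, 4, 6, 7]),
   ([0, 2, 3, 4, 5, 6, 7], [0, 1, 2, 5, 6, 7]),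
   ([0, 2, 3, 4, 5, 6, 7], [0, 1, 2, 4, 5, 7]),
   ([0, 2, 3, 4, 5, 6, 7], [0, 1, 2, 3, 4, 7]),
   ([0, 1, 2, 3, 4, 6, 7], [0, 1, 4, 5, 6, 7]),
   ([0, 1, 2, 3, 4, 5, 6], [0, 1, 4, 5, 6, 7]),
   ([0, 1, 2, 3, 5, 6, 7], [0, 1, 3, 4, 5, 7]),
   ([0, 1, 2, 3, 4, 5, 6], [0, 1, 3, 4, 6, 7]),
   ([0, 1, 2, 4, 5, 6, 7], [0, 1, 2, 3, 4, 7]),
   ([0, 1, 2, 3, 4, 5, 6], [0, 1, 2, 3, 6, 7])]

/-- the pairs of faces of `∪_4` on `C^6 × C^6` -/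
def pr668 : List (List ℕ × List ℕ) :=
  [([0, 1, 2, 5, 6, 7, 8], [2, 3, 4, 5, 6, 7, 8]),
   ([0, 1, 2, 4, 5, 7, 8], [2, 3, 4, 5, 6, 7, 8]),
   ([0, 1, 2, 4, 5, 6, 7], [2, 3, 4, 5, 6, 7, 8]),
   ([0, 1, 2, 3, 4, 7, 8], [2, 3, 4, 5, 6, 7, 8]),
   ([0, 1, 2, 3, 4, 6, 7], [2, 3, 4, 5, 6, 7, 8]),
   ([0, 1, 2, 3, 4, 5, 6], [2, 3, 4, 5, 6, 7, 8]),
   ([0, 1, 4, 5, 6, 7, 8], [1, 2, 3, 4, 6, 7, 8]),
   ([0, 1, 4, 5, 6, 7, 8], [1, 2, 3, 4, 5, 6, 8]),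
   ([0, 1, 3, 4, 5, 7, 8], [1, 2, 3, 5, 6, 7, 8]),
   ([0, 1, 3, 4, 5, 6, 7], [1, 2, 3, 5, 6, 7, 8]),
   ([0, 1, 3, 4, 6, 7, 8], [1, 2, 3, 4, 5, 6, 8]),
   ([0, 1, 3, 4, 5, 6, 7], [1, 2, 3, 4, 5, 7, 8]),
   ([0, 1, 2, 3, 4, 7, 8], [1, 2, 4, 5, 6, 7, 8]),
   ([0, 1, 2, 3, 4, 6, 7], [1, 2, 4, 5, 6, 7, 8]),
   ([0, 1, 2, 3, 4, 5, 6], [1, 2, 4, 5, 6, 7, 8]),
   ([0, 1, 2, 3, 6, 7, 8], [1, 2, 3, 4, 5, 6, 8]),
   ([0, 1, 2, 3, 5, 6, 7], [1, 2, 3, 4, 5, 7, 8]),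
   ([0, 1, 2, 3, 4, 5, 6], [1, 2, 3, 4, 6, 7, 8]),
   ([0, 3, 4, 5, 6, 7, 8], [0, 1, 2, 3, 6, 7, 8]),
   ([0, 3, 4, 5, 6, 7, 8], [0, 1, 2, 3, 5, 6, 8]),
   ([0, 3, 4, 5, 6, 7, 8], [0, 1, 2, 3, 4, 5, 8]),
   ([0, 2, 3, 4, 5, 7, 8], [0, 1, 2, 5, 6, 7, 8]),
   ([0, 2, 3, 4, 5, 6, 7], [0, 1, 2, 5, 6, 7, 8]),
   ([0, 2, 3, 4, 6, 7, 8], [0, 1, 2, 4, 5, 6, 8]),
   ([0, 2, 3, 4, 5, 6, 7], [0, 1, 2, 4, 5, 7, 8]),
   ([0, 2, 3, 5, 6, 7, 8], [0, 1, 2, 3, 4, 5, 8]),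
   ([0, 2, 3, 4, 5, 6, 7], [0, 1, 2, 3, 4, 7, 8]),
   ([0, 1, 2, 3, 4, 7, 8], [0, 1, 4, 5, 6, 7, 8]),
   ([0, 1, 2, 3, 4, 6, 7], [0, 1, 4, 5, 6, 7, 8]),
   ([0, 1, 2, 3, 4, 5, 6], [0, 1, 4, 5, 6, 7, 8]),
   ([0, 1, 2, 3, 6, 7, 8], [0, 1, 3, 4, 5, 6, 8]),
   ([0, 1, 2, 3, 5, 6, 7], [0, 1, 3, 4, 5, 7, 8]),
   ([0, 1, 2, 3, 4, 5, 6], [0, 1, 3, 4, 6, 7, 8]),
   ([0, 1, 2, 5, 6, 7, 8], [0, 1, 2, 3, 4, 5, 8]),
   ([0, 1, 2, 4, 5, 6, 7], [0, 1, 2, 3, 4, 7, 8]),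
   ([0, 1, 2, 3, 4, 5, 6], [0, 1, 2, 3, 6, 7, 8])]

/-- the pairs of faces of `∪_4` on `C^5 × C^7` -/
def pr578 : List (List ℕ × List ℕ) :=
  [([0, 1, 5, 6, 7, 8], [1, 2, 3, 4, 5, 6, 7, 8]),
   ([0, 1, 4, 5, 7, 8], [1, 2, 3, 4, 5, 6, 7, 8]),
   ([0, 1, 4, 5, 6, 7], [1, 2, 3, 4, 5, 6, 7, 8]),
   ([0, 1, 3, 4, 7, 8], [1, 2, 3, 4, 5, 6, 7, 8]),
   ([0, 1, 3, 4, 6, 7], [1, 2, 3, 4, 5, 6, 7, 8]),
   ([0, 1, 3, 4, 5, 6], [1, 2, 3, 4, 5, 6, 7, 8]),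
   ([0, 1, 2, 3, 7, 8], [1, 2, 3, 4, 5, 6, 7, 8]),
   ([0, 1, 2, 3, 6, 7], [1, 2, 3, 4, 5, 6, 7, 8]),
   ([0, 1, 2, 3, 5, 6], [1, 2, 3, 4, 5, 6, 7, 8]),
   ([0, 1, 2, 3, 4, 5], [1, 2, 3, 4, 5, 6, 7, 8]),
   ([0, 4, 5, 6, 7, 8], [0, 1, 2, 3, 4, 6, 7, 8]),
   ([0, 4, 5, 6, 7, 8], [0, 1, 2, 3, 4, 5, 6, 8]),
   ([0, 3, 4, 5, 7, 8], [0, 1, 2, 3, 5, 6, 7, 8]),
   ([0, 3, 4, 5, 6, 7], [0, 1, 2, 3, 5, 6, 7, 8]),
   ([0, 3, 4, 6, 7, 8], [0, 1, 2, 3, 4, 5, 6, 8]),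
   ([0, 3, 4, 5, 6, 7], [0, 1, 2, 3, 4, 5, 7, 8]),
   ([0, 2, 3, 4, 7, 8], [0, 1, 2, 4, 5, 6, 7, 8]),
   ([0, 2, 3, 4, 6, 7], [0, 1, 2, 4, 5, 6, 7, 8]),
   ([0, 2, 3, 4, 5, 6], [0, 1, 2, 4, 5, 6, 7, 8]),
   ([0, 2, 3, 6, 7, 8], [0, 1, 2, 3, 4, 5, 6, 8]),
   ([0, 2, 3, 5, 6, 7], [0, 1, 2, 3, 4, 5, 7, 8]),
   ([0, 2, 3, 4, 5, 6], [0, 1, 2, 3, 4, 6, 7, 8]),
   ([0, 1, 2, 3, 7, 8], [0, 1, 3, 4, 5, 6, 7, 8]),
   ([0, 1, 2, 3, 6, 7], [0, 1, 3, 4, 5, 6, 7, 8]),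
   ([0, 1, 2, 3, 5, 6], [0, 1, 3, 4, 5, 6, 7, 8]),
   ([0, 1, 2, 3, 4, 5], [0, 1, 3, 4, 5, 6, 7, 8]),
   ([0, 1, 2, 6, 7, 8], [0, 1, 2, 3, 4, 5, 6, 8]),
   ([0, 1, 2, 5, 6, 7], [0, 1, 2, 3, 4, 5, 7, 8]),
   ([0, 1, 2, 4, 5, 6], [0, 1, 2, 3, 4, 6, 7, 8]),
   ([0, 1, 2, 3, 4, 5], [0, 1, 2, 3, 5, 6, 7, 8])]

/-- the pairs of faces of `∪_3` on `C^5 × C^5` -/
def pr557 : List (List ℕ × List ℕ) :=
  [([0, 1, 2, 5, 6, 7], [2, 3, 4, 5, 6, 7]),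
   ([0, 1, 2, 4, 5, 7], [2, 3, 4, 5, 6, 7]),
   ([0, 1, 2, 3, 4, 7], [2, 3, 4, 5, 6, 7]),
   ([0, 1, 4, 5, 6, 7], [1, 2, 3, 4, 6, 7]),
   ([0, 1, 4, 5, 6, 7], [1, 2, 3, 4, 5, 6]),
   ([0, 1, 3, 4, 5, 7], [1, 2, 3, 5, 6, 7]),
   ([0, 1, 3, 4, 6, 7], [1, 2, 3, 4, 5, 6]),
   ([0, 1, 2, 3, 4, 7], [1, 2, 4, 5, 6, 7]),
   ([0, 1, 2, 3, 6, 7], [1, 2, 3, 4, 5, 6]),
   ([0, 3, 4, 5, 6, 7], [0, 1, 2, 3, 6, 7]),
   ([0, 3, 4, 5, 6, 7], [0, 1, 2, 3, 5, 6]),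
   ([0, 3, 4, 5, 6, 7], [0, 1, 2, 3, 4, 5]),
   ([0, 2, 3, 4, 5, 7], [0, 1, 2, 5, 6, 7]),
   ([0, 2, 3, 4, 6, 7], [0, 1, 2, 4, 5, 6]),
   ([0, 2, 3, 5, 6, 7], [0, 1, 2, 3, 4, 5]),
   ([0, 1, 2, 3, 4, 7], [0, 1, 4, 5, 6, 7]),
   ([0, 1, 2, 3, 6, 7], [0, 1, 3, 4, 5, 6]),
   ([0, 1, 2, 5, 6, 7], [0, 1, 2, 3, 4, 5])]

/-- the pairs of faces of `∪_3` on `C^5 × C^6` -/
def pr568 : List (List ℕ × List ℕ) :=
  [([0, 1, 2, 6, 7, 8], [2, 3, 4, 5, 6, 7, 8]),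
   ([0, 1, 2, 5, 6, 8], [2, 3, 4, 5, 6, 7, 8]),
   ([0, 1, 2, 4, 5, 8], [2, 3, 4, 5, 6, 7, 8]),
   ([0, 1, 2, 3, 4, 8], [2, 3, 4, 5, 6, 7, 8]),
   ([0, 1, 5, 6, 7, 8], [1, 2, 3, 4, 5, 7, 8]),
   ([0, 1, 5, 6, 7, 8], [1, 2, 3, 4, 5, 6, 7]),
   ([0, 1, 4, 5, 6, 8], [1, 2, 3, 4, 6, 7, 8]),
   ([0, 1, 4, 5, 7, 8], [1, 2, 3, 4, 5, 6, 7]),
   ([0, 1, 3, 4, 5, 8], [1, 2, 3, 5, 6, 7, 8]),
   ([0, 1, 3, 4, 7, 8], [1, 2, 3, 4, 5, 6, 7]),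
   ([0, 1, 2, 3, 4, 8], [1, 2, 4, 5, 6, 7, 8]),
   ([0, 1, 2, 3, 7, 8], [1, 2, 3, 4, 5, 6, 7]),
   ([0, 4, 5, 6, 7, 8], [0, 1, 2, 3, 4, 7, 8]),
   ([0, 4, 5, 6, 7, 8], [0, 1, 2, 3, 4, 6, 7]),
   ([0, 4, 5, 6, 7, 8], [0, 1, 2, 3, 4, 5, 6]),
   ([0, 3, 4, 5, 6, 8], [0, 1, 2, 3, 6, 7, 8]),
   ([0, 3, 4, 5, 7, 8], [0, 1, 2, 3, 5, 6, 7]),
   ([0, 3, 4, 6, 7, 8], [0, 1, 2, 3, 4, 5, 6]),
   ([0, 2, 3, 4, 5, 8], [0, 1, 2, 5, 6, 7, 8]),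
   ([0, 2, 3, 4, 7, 8], [0, 1, 2, 4, 5, 6, 7]),
   ([0, 2, 3, 6, 7, 8], [0, 1, 2, 3, 4, 5, 6]),
   ([0, 1, 2, 3, 4, 8], [0, 1, 4, 5, 6, 7, 8]),
   ([0, 1, 2, 3, 7, 8], [0, 1, 3, 4, 5, 6, 7]),
   ([0, 1, 2, 6, 7, 8], [0, 1, 2, 3, 4, 5, 6])]

/-- the pairs of faces of `∪_3` on `C^6 × C^5` -/
def pr658 : List (List ℕ × List ℕ) :=
  [([0, 1, 2, 3, 6, 7, 8], [3, 4, 5, 6, 7, 8]),
   ([0, 1, 2, 3, 5, 6, 8], [3, 4, 5, 6, 7, 8]),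
   ([0, 1, 2, 3, 4, 5, 8], [3, 4, 5, 6, 7, 8]),
   ([0, 1, 2, 5, 6, 7, 8], [2, 3, 4, 5, 7, 8]),
   ([0, 1, 2, 5, 6, 7, 8], [2, 3, 4, 5, 6, 7]),
   ([0, 1, 2, 4, 5, 6, 8], [2, 3, 4, 6, 7, 8]),
   ([0, 1, 2, 4, 5, 7, 8], [2, 3, 4, 5, 6, 7]),
   ([0, 1, 2, 3, 4, 5, 8], [2, 3, 5, 6, 7, 8]),
   ([0, 1, 2, 3, 4, 7, 8], [2, 3, 4, 5, 6, 7]),
   ([0, 1, 4, 5, 6, 7, 8], [1, 2, 3, 4, 7, 8]),
   ([0, 1, 4, 5, 6, 7, 8], [1, 2, 3, 4, 6, 7]),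
   ([0, 1, 4, 5, 6, 7, 8], [1, 2, 3, 4, 5, 6]),
   ([0, 1, 3, 4, 5, 6, 8], [1, 2, 3, 6, 7, 8]),
   ([0, 1, 3, 4, 5, 7, 8], [1, 2, 3, 5, 6, 7]),
   ([0, 1, 3, 4, 6, 7, 8], [1, 2, 3, 4, 5, 6]),
   ([0, 1, 2, 3, 4, 5, 8], [1, 2, 5, 6, 7, 8]),
   ([0, 1, 2, 3, 4, 7, 8], [1, 2, 4, 5, 6, 7]),
   ([0, 1, 2, 3, 6, 7, 8], [1, 2, 3, 4, 5, 6]),
   ([0, 3, 4, 5, 6, 7, 8], [0, 1, 2, 3, 7, 8]),
   ([0, 3, 4, 5, 6, 7, 8], [0, 1, 2, 3, 6, 7]),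
   ([0, 3, 4, 5, 6, 7, 8], [0, 1, 2, 3, 5, 6]),
   ([0, 3, 4, 5, 6, 7, 8], [0, 1, 2, 3, 4, 5]),
   ([0, 2, 3, 4, 5, 6, 8], [0, 1, 2, 6, 7, 8]),
   ([0, 2, 3, 4, 5, 7, 8], [0, 1, 2, 5, 6, 7]),
   ([0, 2, 3, 4, 6, 7, 8], [0, 1, 2, 4, 5, 6]),
   ([0, 2, 3, 5, 6, 7, 8], [0, 1, 2, 3, 4, 5]),
   ([0, 1, 2, 3, 4, 5, 8], [0, 1, 5, 6, 7, 8]),
   ([0, 1, 2, 3, 4, 7, 8], [0, 1, 4, 5, 6, 7]),
   ([0, 1, 2, 3, 6, 7, 8], [0, 1, 3, 4, 5, 6]),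
   ([0, 1, 2, 5, 6, 7, 8], [0, 1, 2, 3, 4, 5])]

/-- the pairs of faces of `∪_2` on `C^5 × C^5` -/
def pr558 : List (List ℕ × List ℕ) :=
  [([0, 1, 2, 3, 7, 8], [3, 4, 5, 6, 7, 8]),
   ([0, 1, 2, 3, 6, 7], [3, 4, 5, 6, 7, 8]),
   ([0, 1, 2, 3, 5, 6], [3, 4, 5, 6, 7, 8]),
   ([0, 1, 2, 3, 4, 5], [3, 4, 5, 6, 7, 8]),
   ([0, 1, 2, 6, 7, 8], [2, 3, 4, 5, 6, 8]),
   ([0, 1, 2, 5, 6, 7], [2, 3, 4, 5, 7, 8]),
   ([0, 1, 2, 4, 5, 6], [2, 3, 4, 6, 7, 8]),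
   ([0, 1, 2, 3, 4, 5], [2, 3, 5, 6, 7, 8]),
   ([0, 1, 5, 6, 7, 8], [1, 2, 3, 4, 5, 8]),
   ([0, 1, 4, 5, 6, 7], [1, 2, 3, 4, 7, 8]),
   ([0, 1, 3, 4, 5, 6], [1, 2, 3, 6, 7, 8]),
   ([0, 1, 2, 3, 4, 5], [1, 2, 5, 6, 7, 8]),
   ([0, 4, 5, 6, 7, 8], [0, 1, 2, 3, 4, 8]),
   ([0, 3, 4, 5, 6, 7], [0, 1, 2, 3, 7, 8]),
   ([0, 2, 3, 4, 5, 6], [0, 1, 2, 6, 7, 8]),
   ([0, 1, 2, 3, 4, 5], [0, 1, 5, 6, 7, 8])]


theorem ok556 : okL 5 5 6 pr556 := by decide +kernel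
theorem ok567 : okL 5 6 7 pr567 := by decide +kernel
theorem ok657 : okL 6 5 7 pr657 := by decide +kernel
theorem ok668 : okL 6 6 8 pr668 := by decide +kernel
theorem ok578 : okL 5 7 8 pr578 := by decide +kernel
theorem ok557 : okL 5 5 7 pr557 := by decide +kernel
theorem ok568 : okL 5 6 8 pr568 := by decide +kernel
theorem ok658 : okL 6 5 8 pr658 := by decide +kernel
theorem ok558 : okL 5 5 8 pr558 := by decide +kernel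

theorem chk1 : chk (dOut 7 pr567 ++ dL 5 pr668 ++ dR 6 pr578 ++ pr568 ++ pr658.map Prod.swap) =
    true := by decide +kernel
theorem chk2 : chk (dOut 7 pr557 ++ dL 5 pr658 ++ dR 5 pr568 ++ pr558 ++ pr558.map Prod.swap) =
    true := by decide +kernel
theorem chk3 : chk (dOut 6 pr556 ++ dL 5 pr657 ++ dR 5 pr567 ++ pr557 ++ pr557.map Prod.swap) =
    true := by decide +kernel

end Pool.Agent.Lib.MP_89fcdb_gt.H27
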