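import Pool.Agent.Lib.MP_89fcdb_gt.H27.LemmaOne
import Pool.Agent.Lib.MP_89fcdb_gt.H83.Inv

/-!
# MP_89fcdb_gt: Lemma 1 in terms of `cu`, `inv`, `invB`, `Half`
-/

open scoped BigOperators

namespace Pool.Agent.Lib.MP_89fcdb_gt.H27

open Pool.Agent.Lib.MP_904b2a_gt
open Pool.Agent.Lib.MP_89fcdb_gt (F2 cu)
open Pool.Agent.Lib.MP_89fcdb_gt.H83 (one0 inv invB Half coch_add_self)

variable {X S : Type} [TopologicalSpace X] [TopologicalSpace S]

theorem bil_eq_cu {p q n : ℕ} (h : p + q = n) (φ : Coch p X F2) (ψ : Coch q X F2) :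
    bil p q n (cp p q) φ ψ = cu p q n φ ψ := by
  funext σ
  have e1 : vm p n (List.range (p + 1)) = frontv p n := by
    funext k
    apply Fin.ext
    have := k.2
    rw [vm_val, frontv_val, List.getD_eq_getElem _ _ (by simp; omega), List.getElem_range]
  have e2 : vm q n ((List.range (q + 1)).map (· + p)) = backv q n := by
    funext k
    apply Fin.ext
    have := k.2
    rw [vm_val, backv_val, List.getD_eq_getElem _ _ (by simp; omega), List.getElem_map,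
      List.getElem_range]
    omega
  simp only [bil, cp, List.map_cons, List.map_nil, List.sum_cons, List.sum_nil, add_zero]
  rw [e1, e2]
  rfl

theorem pw_eq (a : Coch 1 X F2) (k : ℕ) : pw k a = H83.pwr a k := by
  induction k with
  | zero =>
    funext σ
    simp [pw, H83.pwr, one0]
  | succ k ih =>
    rw [H83.pwr_succ, ← ih, ← bil_eq_cu rfl]
    have hok1 : ok k (k + 1) (List.range (k + 1)) := by
      refine ⟨by simp, fun x hx => ?_⟩
      have := List.mem_range.1 hx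
      omega
    have hok2 : ok 1 (k + 1) ((List.range (1 + 1)).map (· + k)) := by
      refine ⟨by simp, fun x hx => ?_⟩
      obtain ⟨y, hy, rfl⟩ := List.mem_map.1 hx
      have := List.mem_range.1 hy
      omega
    have h := pw_cup (X := X) (p := k) (q := 1) (n := k + 1) rfl hok1 hok2 a
    rw [pw_one] at h
    exact h.symm

theorem odd0_of_half {τ : C(X, X)} {s : Coch 0 X F2} (h : Half τ s) : Odd0 τ s := h.pbC_eq

theorem half_of_odd0 {τ : C(X, X)} {s : Coch 0 X F2} (h : Odd0 τ s) : Half τ s := by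
  have h1 : pbC 0 τ s = s + one0 := h
  change s + pbC 0 τ s = one0
  rw [h1, ← add_assoc, coch_add_self]
  exact zero_add _

theorem mem_invB_iff {τ : C(X, X)} {n : ℕ} {φ : Coch (n + 1) X F2} :
    φ ∈ invB τ (n + 1) ↔ ICob τ n φ := Iff.rfl

/-- **Lemma 1**: two equivariant maps `f₀`, `f₁` to a sphere induce the same map on the top
cohomology. -/
theorem lemma_one_inv {τ : C(X, X)} {τ' : C(S, S)} (hτ' : τ'.comp τ' = ContinuousMap.id S)
    (f₀ f₁ : C(X, S)) (h₀ : f₀.comp τ = τ'.comp f₀) (h₁ : f₁.comp τ = τ'.comp f₁)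
    (u : C(X, S)) (hu : u.comp τ = u) {κ : Coch 5 S F2} (hκ : cob 5 κ = 0)
    (hs : ∃ s : Coch 0 S F2, Half τ' s)
    (hS6 : ∀ z ∈ inv τ' 6, cob 6 z = 0 → z ∈ invB τ' 6)
    (hS7 : ∀ z ∈ inv τ' 7, cob 7 z = 0 → z ∈ invB τ' 7)
    (hS5 : ∀ s : Coch 0 S F2, Half τ' s → H83.pwr (cob 0 s) 5 ∉ invB τ' 5)
    (hS5' : ∀ z : Coch 5 S F2, cob 5 z = 0 →
      z ∈ coboundaries S F2 5 ∨ z + κ ∈ coboundaries S F2 5)
    (hS7' : ∀ z : Coch 7 S F2, cob 7 z = 0 → z ∈ coboundaries S F2 7)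
    (hX5 : ∀ z ∈ inv τ 5, cob 5 z = 0 → z ∈ invB τ 5 ∨ z + pbC 5 u κ ∈ invB τ 5)
    (hX6 : ∀ s : Coch 0 X F2, Half τ s → H83.pwr (cob 0 s) 6 ∈ invB τ 6)
    (hX7 : ∀ s : Coch 0 X F2, Half τ s →
      cu 5 2 7 (pbC 5 u κ) (H83.pwr (cob 0 s) 2) ∉ invB τ 7) :
    pbC 5 f₀ κ + pbC 5 f₁ κ ∈ coboundaries X F2 5 := by
  obtain ⟨s, hs⟩ := hs
  have hso : Odd0 τ' s := odd0_of_half hs
  -- the cochain `c`
  obtain ⟨c, hci, hcc⟩ : ICob τ' 5 (pw 6 (cob 0 s)) := by
    refine hS6 _ ?_ (cob_pw6 (cob_cob 0 s))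
    exact hso.inv_cob.pw
  -- the square of `β`
  have hββ : ICob τ 6 (bil 5 5 7 pr557 (pbC 5 u κ) (pbC 5 u κ)) := by
    obtain ⟨g, hg⟩ := hS7' _ (cob_sq hκ)
    refine ⟨pbC 6 u g, ?_, ?_⟩
    · change pbC 6 (u.comp τ) g = pbC 6 u g
      rw [hu]
    · rw [← pbC_cob, hg, pbC_bil]
  have hu' : Inv τ 5 (pbC 5 u κ) := by
    change pbC 5 (u.comp τ) κ = pbC 5 u κ
    rw [hu]
  obtain ⟨g, hg⟩ := lemma_one f₀ f₁ h₀ h₁ hso hci hcc (fun z hz hc => hS7 z hz hc)
    (by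
      have := hX6 _ (half_of_odd0 (hso.pb f₀ h₀))
      rw [← pw_eq] at this
      exact this)
    hu' (by rw [← pbC_cob, hκ, map_zero])
    (by
      intro d hd hdc
      rcases hX5 d hd hdc with h | h
      · obtain ⟨g, hg, e⟩ := h
        exact ⟨g, hg, Or.inl e.symm⟩
      · obtain ⟨g, hg, e⟩ := h
        refine ⟨g, hg, Or.inr ?_⟩
        have e' : cob 4 g = d + pbC 5 u κ := e
        rw [e', add_comm d, ← add_assoc, coch_add_self, zero_add])
    hββ
    (by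
      intro s' hs' h
      apply hX7 s' (half_of_odd0 hs')
      rw [← pw_eq, ← bil_eq_cu rfl]
      exact h)
  -- comparison of `kap s c` with `κ`
  have hk : kap s c + κ ∈ coboundaries S F2 5 := by
    rcases hS5' _ (kap_cocycle s c hcc) with h | h
    · exfalso
      obtain ⟨y, hy⟩ := h
      refine kap_ne hτ' hso hci ?_ ⟨y, hy⟩
      intro h5
      apply hS5 s hs
      rw [← pw_eq]
      exact h5
    · exact h
  obtain ⟨y, hy⟩ := hk
  have hy' : cob 4 y = kap s c + κ := hy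
  refine ⟨g + pbC 4 f₀ y + pbC 4 f₁ y, ?_⟩
  rw [map_add, map_add, hg, ← pbC_cob, ← pbC_cob, hy', map_add, map_add]
  generalize pbC 5 f₀ (kap s c) = x1
  generalize pbC 5 f₁ (kap s c) = x2
  generalize pbC 5 f₀ κ = x3
  generalize pbC 5 f₁ κ = x4
  calc x1 + x2 + (x1 + x3) + (x2 + x4) = (x1 + x1) + (x2 + x2) + (x3 + x4) := by abel
    _ = x3 + x4 := by rw [coch_add_self, coch_add_self, zero_add, zero_add]

end Pool.Agent.Lib.MP_89fcdb_gt.H27
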