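import Pool.Agent.Lib.MP_89fcdb_gt.H27.Sq

/-!
# MP_89fcdb_gt: Lemma 1, two odd maps induce the same map on the top class

All cochains have coefficients in `ZMod 2`; the cohomology of the orbit space of a free involution
`τ` is represented by the `τ`-invariant cochains.
-/

open scoped BigOperators
open Pool.Agent.Lib.MP_904b2a_gt

namespace Pool.Agent.Lib.MP_89fcdb_gt.H27

variable {X Y : Type*} [TopologicalSpace X] [TopologicalSpace Y]

/-- invariant cochains -/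
def Inv (τ : C(X, X)) (n : ℕ) (φ : Coch n X (ZMod 2)) : Prop := pbC n τ φ = φ

/-- coboundaries of invariant cochains -/
def ICob (τ : C(X, X)) (n : ℕ) (φ : Coch (n + 1) X (ZMod 2)) : Prop :=
  ∃ g : Coch n X (ZMod 2), Inv τ n g ∧ cob n g = φ

theorem Inv.add {τ : C(X, X)} {n : ℕ} {φ ψ : Coch n X (ZMod 2)} (h : Inv τ n φ)
    (h' : Inv τ n ψ) : Inv τ n (φ + ψ) := by
  unfold Inv
  rw [map_add, h, h']

theorem Inv.cob {τ : C(X, X)} {n : ℕ} {φ : Coch n X (ZMod 2)} (h : Inv τ n φ) :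
    Inv τ (n + 1) (cob n φ) := by
  unfold Inv
  rw [pbC_cob, h]

theorem Inv.bil {τ : C(X, X)} {p q n : ℕ} {L : List (List ℕ × List ℕ)}
    {φ : Coch p X (ZMod 2)} {ψ : Coch q X (ZMod 2)} (h : Inv τ p φ) (h' : Inv τ q ψ) :
    Inv τ n (bil p q n L φ ψ) := by
  unfold Inv
  rw [pbC_bil, h, h']

theorem Inv.pw {τ : C(X, X)} {k : ℕ} {a : Coch 1 X (ZMod 2)} (h : Inv τ 1 a) :
    Inv τ k (pw k a) := by
  unfold Inv
  rw [pbC_pw, h]

theorem ICob.add {τ : C(X, X)} {n : ℕ} {φ ψ : Coch (n + 1) X (ZMod 2)} (h : ICob τ n φ)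
    (h' : ICob τ n ψ) : ICob τ n (φ + ψ) := by
  obtain ⟨g, hg, rfl⟩ := h
  obtain ⟨g', hg', rfl⟩ := h'
  exact ⟨g + g', hg.add hg', map_add _ _ _⟩

theorem ICob.pb {τ : C(X, X)} {α : C(Y, Y)} {n : ℕ} (f : C(X, Y)) (hf : f.comp τ = α.comp f)
    {φ : Coch (n + 1) Y (ZMod 2)} (h : ICob α n φ) : ICob τ n (pbC (n + 1) f φ) := by
  obtain ⟨g, hg, rfl⟩ := h
  refine ⟨pbC n f g, ?_, (pbC_cob n f g).symm⟩
  unfold Inv
  change pbC n (f.comp τ) g = pbC n f g
  rw [hf]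
  change pbC n f (pbC n α g) = pbC n f g
  rw [hg]

theorem Inv.pb {τ : C(X, X)} {α : C(Y, Y)} {n : ℕ} (f : C(X, Y)) (hf : f.comp τ = α.comp f)
    {φ : Coch n Y (ZMod 2)} (h : Inv α n φ) : Inv τ n (pbC n f φ) := by
  unfold Inv
  change pbC n (f.comp τ) φ = pbC n f φ
  rw [hf]
  change pbC n f (pbC n α φ) = pbC n f φ
  rw [h]

/-! ### Equivariant homotopies -/

theorem prismC_inv {τ : C(X, X)} {α : C(Y, Y)} {f₀ f₁ : C(X, Y)} (F : f₀.Homotopy f₁)
    (hF : ∀ t x, F (t, τ x) = α (F (t, x))) (n : ℕ) {φ : Coch (n + 1) Y (ZMod 2)}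
    (h : Inv α (n + 1) φ) : Inv τ n (prismC F n φ) := by
  unfold Inv
  funext σ
  change prismC F n φ (τ.comp σ) = prismC F n φ σ
  unfold prismC
  refine Finset.sum_congr rfl fun j _ => ?_
  congr 1
  have e : prismH F n j (τ.comp σ) = α.comp (prismH F n j σ) := by
    ext t
    exact hF _ _
  rw [e]
  exact congrFun h (prismH F n j σ)

/-- Invariant cocycles pull back along equivariantly homotopic maps to cocycles which differ by
the coboundary of an invariant cochain. -/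
theorem icob_of_homotopy {τ : C(X, X)} {α : C(Y, Y)} {f₀ f₁ : C(X, Y)} (F : f₀.Homotopy f₁)
    (hF : ∀ t x, F (t, τ x) = α (F (t, x))) (n : ℕ) {φ : Coch (n + 1) Y (ZMod 2)}
    (h : Inv α (n + 1) φ) (hc : cob (n + 1) φ = 0) :
    ICob τ n (pbC (n + 1) f₀ φ + pbC (n + 1) f₁ φ) := by
  refine ⟨prismC F n φ, prismC_inv F hF n h, ?_⟩
  have e := prismC_formula F n φ
  have h0 : prismC F (n + 1) (0 : Coch (n + 2) Y (ZMod 2)) = 0 := by
    funext σ
    simp [prismC]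
  rw [hc, h0, zero_add] at e
  rw [e]
  funext σ
  simp only [Pi.sub_apply, Pi.add_apply]
  rw [CharTwo.sub_eq_add, add_comm]

section cylinder

variable {P : Type*} [TopologicalSpace P]

/-- the end of the cylinder -/
def iend (r : unitInterval) : C(P, P × unitInterval) := ⟨fun z => (z, r), by fun_prop⟩

/-- the involution of the cylinder -/
def cyl (τ : C(P, P)) : C(P × unitInterval, P × unitInterval) := ⟨fun z => (τ z.1, z.2), by fun_prop⟩

/-- the projection of the cylinder -/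
def cpr : C(P × unitInterval, P) := ⟨fun z => z.1, by fun_prop⟩

/-- the homotopy between the ends -/
def endHom : (iend (P := P) 0).Homotopy (iend 1) where
  toFun z := (z.2, z.1)
  continuous_toFun := by fun_prop
  map_zero_left _ := rfl
  map_one_left _ := rfl

/-- the contraction of the cylinder onto its lower end -/
def conHom : ((iend (P := P) 0).comp cpr).Homotopy (ContinuousMap.id (P × unitInterval)) where
  toFun z := (z.2.1, z.1 * z.2.2)
  continuous_toFun := by fun_prop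
  map_zero_left z := by
    ext
    · rfl
    · simp [iend, cpr]
  map_one_left z := by
    ext
    · rfl
    · simp

theorem icob_ends (τ : C(P, P)) (n : ℕ) {z : Coch (n + 1) (P × unitInterval) (ZMod 2)}
    (h : Inv (cyl τ) (n + 1) z) (hc : cob (n + 1) z = 0) :
    ICob τ n (pbC (n + 1) (iend 0) z + pbC (n + 1) (iend 1) z) :=
  icob_of_homotopy endHom (fun _ _ => rfl) n h hc

theorem cob_ends (n : ℕ) {z : Coch (n + 1) (P × unitInterval) (ZMod 2)} (hc : cob (n + 1) z = 0) :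
    ∃ g : Coch n P (ZMod 2), cob n g = pbC (n + 1) (iend 0) z + pbC (n + 1) (iend 1) z := by
  obtain ⟨g, _, hg⟩ := icob_of_homotopy (τ := ContinuousMap.id P) (α := ContinuousMap.id (P × unitInterval))
    endHom (fun _ _ => rfl) n (φ := z) rfl hc
  exact ⟨g, hg⟩

theorem icob_cyl (τ : C(P, P)) (n : ℕ) {z : Coch (n + 1) (P × unitInterval) (ZMod 2)}
    (h : Inv (cyl τ) (n + 1) z) (hc : cob (n + 1) z = 0)
    (h0 : ICob τ n (pbC (n + 1) (iend 0) z)) : ICob (cyl τ) n z := by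
  have h1 := icob_of_homotopy (τ := cyl τ) (α := cyl τ) conHom (fun _ _ => rfl) n h hc
  have h2 : ICob (cyl τ) n (pbC (n + 1) ((iend 0).comp cpr) z) :=
    ICob.pb (τ := cyl τ) (α := τ) cpr rfl h0
  have h3 := h2.add h1
  have e : pbC (n + 1) ((iend 0).comp cpr) z + (pbC (n + 1) ((iend 0).comp cpr) z +
      pbC (n + 1) (ContinuousMap.id (P × unitInterval)) z) = z := by
    rw [← add_assoc, coch_add_self, zero_add]
    rfl
  rwa [e] at h3

open Classical in
/-- extension of cochains on the two ends by zero -/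
noncomputable def extend (n : ℕ) (g₀ g₁ : Coch n P (ZMod 2)) : Coch n (P × unitInterval) (ZMod 2) :=
  fun σ => if ∀ t, (σ t).2 = 0 then g₀ (cpr.comp σ) else
    if ∀ t, (σ t).2 = 1 then g₁ (cpr.comp σ) else 0

theorem pbC_extend_zero (n : ℕ) (g₀ g₁ : Coch n P (ZMod 2)) :
    pbC n (iend 0) (extend n g₀ g₁) = g₀ := by
  funext σ
  change extend n g₀ g₁ ((iend 0).comp σ) = g₀ σ
  unfold extend
  have h : ∀ t, (((iend (P := P) 0).comp σ) t).2 = 0 := fun t => rfl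
  rw [if_pos h]
  rfl

theorem pbC_extend_one (n : ℕ) (g₀ g₁ : Coch n P (ZMod 2)) :
    pbC n (iend 1) (extend n g₀ g₁) = g₁ := by
  funext σ
  change extend n g₀ g₁ ((iend 1).comp σ) = g₁ σ
  unfold extend
  have h : ∀ t, (((iend (P := P) 1).comp σ) t).2 = 1 := fun t => rfl
  rw [if_neg, if_pos h]
  · rfl
  · intro h
    have := h (stdSimplex.vertex 0)
    exact one_ne_zero this

theorem inv_extend {τ : C(P, P)} {n : ℕ} {g₀ g₁ : Coch n P (ZMod 2)} (h₀ : Inv τ n g₀)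
    (h₁ : Inv τ n g₁) : Inv (cyl τ) n (extend n g₀ g₁) := by
  unfold Inv
  funext σ
  change extend n g₀ g₁ ((cyl τ).comp σ) = extend n g₀ g₁ σ
  unfold extend
  have e0 : g₀ (cpr.comp ((cyl τ).comp σ)) = g₀ (cpr.comp σ) := congrFun h₀ (cpr.comp σ)
  have e1 : g₁ (cpr.comp ((cyl τ).comp σ)) = g₁ (cpr.comp σ) := congrFun h₁ (cpr.comp σ)
  rw [e0, e1]
  rfl

end cylinder

/-! ### Lemma 1 -/

/-- the class of the sphere -/
noncomputable def kap {S : Type*} [TopologicalSpace S] (s : Coch 0 S (ZMod 2))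
    (c : Coch 5 S (ZMod 2)) : Coch 5 S (ZMod 2) :=
  c + bil 0 5 5 (cp 0 5) s (pw 5 (cob 0 s))

/-- `s` takes different values on the two points of an orbit -/
def Odd0 (τ : C(X, X)) (s : Coch 0 X (ZMod 2)) : Prop := pbC 0 τ s = s + fun _ => 1

theorem Odd0.pb {τ : C(X, X)} {α : C(Y, Y)} (f : C(X, Y)) (hf : f.comp τ = α.comp f)
    {s : Coch 0 Y (ZMod 2)} (h : Odd0 α s) : Odd0 τ (pbC 0 f s) := by
  unfold Odd0
  change pbC 0 (f.comp τ) s = _
  rw [hf]
  change pbC 0 f (pbC 0 α s) = _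
  rw [h]
  rfl

theorem cob_const (a : ZMod 2) : cob 0 (fun _ : C(Simp 0, X) => a) = 0 := by
  funext σ
  rw [cob_two]
  simp [List.range_succ, CharTwo.add_self_eq_zero]

theorem Odd0.inv_cob {τ : C(X, X)} {s : Coch 0 X (ZMod 2)} (h : Odd0 τ s) :
    Inv τ 1 (cob 0 s) := by
  unfold Inv
  rw [pbC_cob, h, map_add, cob_const, add_zero]

theorem kap_cocycle {S : Type*} [TopologicalSpace S] (s : Coch 0 S (ZMod 2))
    (c : Coch 5 S (ZMod 2)) (hc : cob 5 c = pw 6 (cob 0 s)) : cob 5 (kap s c) = 0 := by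
  unfold kap
  rw [map_add, cob_cup05, cob_pw5 (cob_cob 0 s), bil_zero_right, add_zero, pw_cup15, hc]
  exact coch_add_self _

/-- The class `kap` is not a coboundary if `a^5` is not the coboundary of an invariant cochain. -/
theorem kap_ne {S : Type*} [TopologicalSpace S] {α : C(S, S)} (hα : α.comp α = ContinuousMap.id S)
    {s : Coch 0 S (ZMod 2)} (hs : Odd0 α s) {c : Coch 5 S (ZMod 2)} (hc : Inv α 5 c)
    (h5 : ¬ ICob α 4 (pw 5 (cob 0 s))) : ¬ ∃ y, cob 4 y = kap s c := by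
  rintro ⟨y, hy⟩
  apply h5
  refine ⟨y + pbC 4 α y, ?_, ?_⟩
  · unfold Inv
    rw [map_add]
    have : pbC 4 α (pbC 4 α y) = y := by
      change pbC 4 (α.comp α) y = y
      rw [hα]
      rfl
    rw [this, add_comm]
  · rw [map_add, ← pbC_cob, hy]
    unfold kap
    rw [map_add, pbC_bil, hc, hs, (hs.inv_cob.pw (k := 5) : _ = _), bil_add_left]
    have e1 : bil 0 5 5 (cp 0 5) (fun _ => 1) (pw 5 (cob 0 s)) = pw 5 (cob 0 s) := by
      funext σ
      simp only [bil, cp, List.map_cons, List.map_nil, List.sum_cons, List.sum_nil, add_zero,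
        one_mul]
      have h1 : ∀ l, l = List.range (5 + 1) → vm 5 5 l = id := by
        intro l hl
        subst hl
        funext k
        fin_cases k <;> rfl
      rw [h1 _ (by simp), smap_id, ContinuousMap.comp_id]
    rw [e1]
    funext σ
    simp only [Pi.add_apply]
    generalize c σ = x
    generalize bil 0 5 5 (cp 0 5) s (pw 5 (cob 0 s)) σ = y
    generalize pw 5 (cob 0 s) σ = z
    revert x y z
    decide

theorem cobE (a : Coch 1 X (ZMod 2)) (e : Coch 5 X (ZMod 2)) (ha : cob 1 a = 0)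
    (he : cob 5 e = pw 6 a) :
    cob 7 (bil 5 6 7 pr567 e (pw 6 a) + bil 5 5 7 pr557 e e + bil 5 2 7 (cp 5 2) e (pw 2 a)) =
      0 := by
  have h1 := sq_coboundary e
  rw [he] at h1
  rw [map_add, h1, pw_cup4 ha, cob_cup52, he, cob_pw2 ha, bil_zero_right, add_zero, pw_cup62]
  exact coch_add_self _

/-- **Lemma 1.** -/
theorem lemma_one {P S : Type*} [TopologicalSpace P] [TopologicalSpace S] {τ : C(P, P)}
    {α : C(S, S)} (φ₀ φ₁ : C(P, S)) (h₀ : φ₀.comp τ = α.comp φ₀) (h₁ : φ₁.comp τ = α.comp φ₁)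
    {s : Coch 0 S (ZMod 2)} (hs : Odd0 α s) {c : Coch 5 S (ZMod 2)} (hc : Inv α 5 c)
    (hcc : cob 5 c = pw 6 (cob 0 s))
    (hS7 : ∀ z : Coch 7 S (ZMod 2), Inv α 7 z → cob 7 z = 0 → ICob α 6 z)
    (hN6 : ICob τ 5 (pw 6 (cob 0 (pbC 0 φ₀ s))))
    {β : Coch 5 P (ZMod 2)} (hβ : Inv τ 5 β) (hβc : cob 5 β = 0)
    (hN5 : ∀ d : Coch 5 P (ZMod 2), Inv τ 5 d → cob 5 d = 0 →
      ∃ g : Coch 4 P (ZMod 2), Inv τ 4 g ∧ (d = cob 4 g ∨ d = β + cob 4 g))
    (hββ : ICob τ 6 (bil 5 5 7 pr557 β β))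
    (hN7 : ∀ s' : Coch 0 P (ZMod 2), Odd0 τ s' →
      ¬ ICob τ 6 (bil 5 2 7 (cp 5 2) β (pw 2 (cob 0 s')))) :
    ∃ g : Coch 4 P (ZMod 2), cob 4 g = pbC 5 φ₀ (kap s c) + pbC 5 φ₁ (kap s c) := by
  -- the odd 0-cochain on the cylinder
  set t : Coch 0 (P × unitInterval) (ZMod 2) := fun σ =>
    open Classical in if (σ (stdSimplex.vertex 0)).2 = 1 then pbC 0 φ₁ s (cpr.comp σ)
      else pbC 0 φ₀ s (cpr.comp σ) with ht
  have hs0 : Odd0 τ (pbC 0 φ₀ s) := hs.pb φ₀ h₀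
  have hs1 : Odd0 τ (pbC 0 φ₁ s) := hs.pb φ₁ h₁
  have ht0 : pbC 0 (iend 0) t = pbC 0 φ₀ s := by
    funext σ
    change t ((iend 0).comp σ) = _
    simp only [ht]
    rw [if_neg]
    · rfl
    · intro h
      exact zero_ne_one h
  have ht1 : pbC 0 (iend 1) t = pbC 0 φ₁ s := by
    funext σ
    change t ((iend 1).comp σ) = _
    have h : (((iend (P := P) 1).comp σ) (stdSimplex.vertex 0)).2 = 1 := rfl
    simp only [ht]
    rw [if_pos h]
    rfl
  have hto : Odd0 (cyl τ) t := by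
    unfold Odd0
    funext σ
    change t ((cyl τ).comp σ) = t σ + 1
    simp only [ht]
    have e0 : pbC 0 φ₀ s (cpr.comp ((cyl τ).comp σ)) = pbC 0 φ₀ s (cpr.comp σ) + 1 :=
      congrFun hs0 (cpr.comp σ)
    have e1 : pbC 0 φ₁ s (cpr.comp ((cyl τ).comp σ)) = pbC 0 φ₁ s (cpr.comp σ) + 1 :=
      congrFun hs1 (cpr.comp σ)
    rw [e0, e1]
    change (if (σ (stdSimplex.vertex 0)).2 = 1 then _ else _) = _
    split_ifs <;> rfl
  set a : Coch 1 (P × unitInterval) (ZMod 2) := cob 0 t with ha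
  have ha1 : cob 1 a = 0 := cob_cob 0 t
  have hai : Inv (cyl τ) 1 a := hto.inv_cob
  have ha0' : pbC 1 (iend 0) a = cob 0 (pbC 0 φ₀ s) := by rw [ha, pbC_cob, ht0]
  have ha1' : pbC 1 (iend 1) a = cob 0 (pbC 0 φ₁ s) := by rw [ha, pbC_cob, ht1]
  -- the cochain `e`
  obtain ⟨e', he'i, he'⟩ : ICob (cyl τ) 5 (pw 6 a) := by
    refine icob_cyl τ 5 hai.pw (cob_pw6 ha1) ?_
    rw [pbC_pw, ha0']
    exact hN6
  -- the difference classes
  have hd : ∀ (r : unitInterval) (φ : C(P, S)), φ.comp τ = α.comp φ →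
      pbC 1 (iend r) a = cob 0 (pbC 0 φ s) →
      ∃ g : Coch 4 P (ZMod 2), Inv τ 4 g ∧ (pbC 5 (iend r) e' + pbC 5 φ c = cob 4 g ∨
        pbC 5 (iend r) e' + pbC 5 φ c = β + cob 4 g) := by
    intro r φ hφ har
    refine hN5 _ ((Inv.pb (τ := τ) (α := cyl τ) (iend r) rfl he'i).add (hc.pb φ hφ)) ?_
    rw [map_add, ← pbC_cob, ← pbC_cob, he', hcc, pbC_pw, pbC_pw, har, pbC_cob]
    exact coch_add_self _
  obtain ⟨g₀, hg₀, hd₀⟩ := hd 0 φ₀ h₀ ha0'
  obtain ⟨g₁, hg₁, hd₁⟩ := hd 1 φ₁ h₁ ha1'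
  set e : Coch 5 (P × unitInterval) (ZMod 2) := e' + cob 4 (extend 4 g₀ g₁) with he
  have hei : Inv (cyl τ) 5 e := he'i.add (inv_extend hg₀ hg₁).cob
  have hec : cob 5 e = pw 6 a := by
    rw [he, map_add, cob_cob, add_zero, he']
  set d₀ : Coch 5 P (ZMod 2) := pbC 5 (iend 0) e + pbC 5 φ₀ c with hd₀'
  set d₁ : Coch 5 P (ZMod 2) := pbC 5 (iend 1) e + pbC 5 φ₁ c with hd₁'
  have hpe0 : pbC 5 (iend 0) e = pbC 5 (iend 0) e' + cob 4 g₀ := by
    rw [he, map_add, pbC_cob, pbC_extend_zero]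
  have hpe1 : pbC 5 (iend 1) e = pbC 5 (iend 1) e' + cob 4 g₁ := by
    rw [he, map_add, pbC_cob, pbC_extend_one]
  have comb : ∀ x y z w : Coch 5 P (ZMod 2), x + y = z + w → x + w + y = z := by
    intro x y z w h
    have h1 : x + w + y = (x + y) + w := by abel
    rw [h1, h, add_assoc, coch_add_self, add_zero]
  have comb0 : ∀ x y w : Coch 5 P (ZMod 2), x + y = w → x + w + y = 0 := by
    intro x y w h
    exact comb x y 0 w (by rw [h, zero_add])
  have hε₀ : d₀ = 0 ∨ d₀ = β := by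
    rcases hd₀ with h | h
    · left
      rw [hd₀', hpe0]
      exact comb0 _ _ _ h
    · right
      rw [hd₀', hpe0]
      exact comb _ _ _ _ h
  have hε₁ : d₁ = 0 ∨ d₁ = β := by
    rcases hd₁ with h | h
    · left
      rw [hd₁', hpe1]
      exact comb0 _ _ _ h
    · right
      rw [hd₁', hpe1]
      exact comb _ _ _ _ h
  have hEend : ∀ (r : unitInterval) (φ : C(P, S)), φ.comp τ = α.comp φ →
      pbC 1 (iend r) a = cob 0 (pbC 0 φ s) → ∀ d : Coch 5 P (ZMod 2),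
      pbC 5 (iend r) e + pbC 5 φ c = d → (d = 0 ∨ d = β) →
      ICob τ 6 (pbC 7 (iend r) (bil 5 6 7 pr567 e (pw 6 a) + bil 5 5 7 pr557 e e +
        bil 5 2 7 (cp 5 2) e (pw 2 a)) + (bil 5 5 7 pr557 d d +
          bil 5 2 7 (cp 5 2) d (pw 2 (cob 0 (pbC 0 φ s))))) := by
    intro r φ hφ har d hd hdβ
    have hdi : Inv τ 5 d := by
      rw [← hd]
      exact (Inv.pb (τ := τ) (α := cyl τ) (iend r) rfl hei).add (hc.pb φ hφ)
    have hdc : cob 5 d = 0 := by
      rcases hdβ with h | h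
      · rw [h, map_zero]
      · rw [h, hβc]
    set b : Coch 1 P (ZMod 2) := cob 0 (pbC 0 φ s) with hb
    set c' : Coch 5 P (ZMod 2) := pbC 5 φ c with hc'
    have hc'c : cob 5 c' = pw 6 b := by
      rw [hc', ← pbC_cob, hcc, pbC_pw, pbC_cob]
    have her : pbC 5 (iend r) e = d + c' := by
      rw [← hd, add_assoc, coch_add_self, add_zero]
    -- the class of the sphere part
    have hC : ICob τ 6 (bil 5 6 7 pr567 c' (pw 6 b) + bil 5 5 7 pr557 c' c' +
        bil 5 2 7 (cp 5 2) c' (pw 2 b)) := by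
      have h1 : ICob α 6 (bil 5 6 7 pr567 c (pw 6 (cob 0 s)) + bil 5 5 7 pr557 c c +
          bil 5 2 7 (cp 5 2) c (pw 2 (cob 0 s))) := by
        refine hS7 _ ?_ (cobE _ _ (cob_cob 0 s) hcc)
        exact ((hc.bil hs.inv_cob.pw).add (hc.bil hc)).add (hc.bil hs.inv_cob.pw)
      exact h1.pb φ hφ
    have hX : ICob τ 6 (bil 5 6 7 pr567 d (pw 6 b) + bil 5 5 7 pr557 d c' +
        bil 5 5 7 pr557 c' d) := by
      refine ⟨bil 5 5 6 pr556 d c', hdi.bil (hc.pb φ hφ), ?_⟩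
      rw [cross_coboundary hdc, hc'c]
    have e2 := hC.add hX
    convert e2 using 1
    rw [map_add, map_add, pbC_bil, pbC_bil, pbC_bil, pbC_pw, pbC_pw, har, her]
    simp only [bil_add_left, bil_add_right]
    funext σ
    simp only [Pi.add_apply]
    generalize bil 5 6 7 pr567 d (pw 6 b) σ = x1
    generalize bil 5 6 7 pr567 c' (pw 6 b) σ = x2
    generalize bil 5 5 7 pr557 d d σ = x3
    generalize bil 5 5 7 pr557 c' c' σ = x4
    generalize bil 5 5 7 pr557 d c' σ = x5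
    generalize bil 5 5 7 pr557 c' d σ = x6
    generalize bil 5 2 7 (cp 5 2) d (pw 2 b) σ = x7
    generalize bil 5 2 7 (cp 5 2) c' (pw 2 b) σ = x8
    have h2 : (2 : ZMod 2) = 0 := rfl
    linear_combination (x3 + x7) * h2
  have hEi : Inv (cyl τ) 7 (bil 5 6 7 pr567 e (pw 6 a) + bil 5 5 7 pr557 e e +
      bil 5 2 7 (cp 5 2) e (pw 2 a)) :=
    ((hei.bil hai.pw).add (hei.bil hei)).add (hei.bil hai.pw)
  have hends := icob_ends τ 6 hEi (cobE a e ha1 hec)
  have hI0 := hEend 0 φ₀ h₀ ha0' d₀ rfl hε₀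
  have hI1 := hEend 1 φ₁ h₁ ha1' d₁ rfl hε₁
  have hsum := (hends.add hI0).add hI1
  have hdd : d₀ = d₁ := by
    have key : ICob τ 6 ((bil 5 5 7 pr557 d₀ d₀ +
          bil 5 2 7 (cp 5 2) d₀ (pw 2 (cob 0 (pbC 0 φ₀ s)))) + (bil 5 5 7 pr557 d₁ d₁ +
          bil 5 2 7 (cp 5 2) d₁ (pw 2 (cob 0 (pbC 0 φ₁ s))))) := by
      convert hsum using 1
      funext σ
      simp only [Pi.add_apply]
      ring_nf
      reduce_mod_char
    rcases hε₀ with h0 | h0 <;> rcases hε₁ with h1 | h1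
    · rw [h0, h1]
    · exfalso
      rw [h0, h1, bil_zero_left, bil_zero_left, zero_add, zero_add] at key
      have := key.add hββ
      refine hN7 _ hs1 ?_
      convert this using 1
      funext σ
      simp only [Pi.add_apply]
      ring_nf
      reduce_mod_char
    · exfalso
      rw [h0, h1, bil_zero_left, bil_zero_left, add_zero, add_zero] at key
      have := key.add hββ
      refine hN7 _ hs0 ?_
      convert this using 1
      funext σ
      simp only [Pi.add_apply]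
      ring_nf
      reduce_mod_char
    · rw [h0, h1]
  -- the cocycle `Y`
  set Yc : Coch 5 (P × unitInterval) (ZMod 2) := e + bil 0 5 5 (cp 0 5) t (pw 5 a) with hY
  have hYc : cob 5 Yc = 0 := by
    rw [hY, map_add, cob_cup05, cob_pw5 ha1, bil_zero_right, add_zero, ← ha, pw_cup15, hec]
    exact coch_add_self _
  obtain ⟨g, hg⟩ := cob_ends 4 hYc
  refine ⟨g, ?_⟩
  have hY0 : ∀ r : unitInterval, pbC 5 (iend r) Yc = pbC 5 (iend r) e +
      bil 0 5 5 (cp 0 5) (pbC 0 (iend r) t) (pw 5 (pbC 1 (iend r) a)) := fun r => rfl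
  have hk : ∀ φ : C(P, S), pbC 5 φ (kap s c) = pbC 5 φ c +
      bil 0 5 5 (cp 0 5) (pbC 0 φ s) (pw 5 (cob 0 (pbC 0 φ s))) := fun φ => rfl
  rw [hg, hY0, hY0, hk, hk, ha0', ha1', ht0, ht1]
  have e0 : pbC 5 (iend 0) e = d₀ + pbC 5 φ₀ c := by
    rw [hd₀', add_assoc, coch_add_self, add_zero]
  have e1 : pbC 5 (iend 1) e = d₀ + pbC 5 φ₁ c := by
    rw [hdd, hd₁', add_assoc, coch_add_self, add_zero]
  rw [e0, e1]
  funext σ
  simp only [Pi.add_apply]
  generalize d₀ σ = x1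
  generalize pbC 5 φ₀ c σ = x2
  generalize pbC 5 φ₁ c σ = x3
  have h2 : (2 : ZMod 2) = 0 := rfl
  linear_combination x1 * h2

end Pool.Agent.Lib.MP_89fcdb_gt.H27
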