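import Pool.Agent.Lib.MP_89fcdb_gt.H27.CupI

/-!
# MP_89fcdb_gt: powers of a 1-cocycle modulo 2 and `a^6 ∪_4 a^6 = a^8`
-/

open scoped BigOperators
open Pool.Agent.Lib.MP_904b2a_gt

namespace Pool.Agent.Lib.MP_89fcdb_gt.H27

variable {X Y : Type*} [TopologicalSpace X] [TopologicalSpace Y]

theorem vm_comp_vm {p' p n : ℕ} {l l' : List ℕ} (h : ok p n l) (h' : ok p' p l') :
    vm p n l ∘ vm p' p l' = vm p' n (l'.map fun k => l.getD k 0) := by
  funext k
  apply Fin.ext
  have hk : (k : ℕ) < l'.length := by rw [h'.1]; exact k.2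
  have e1 : ((vm p' p l' k : Fin (p + 1)) : ℕ) = l'[(k : ℕ)] := by
    rw [vm_val, List.getD_eq_getElem _ _ hk]
    exact min_eq_left (h'.2 _ (List.getElem_mem hk))
  have e2 : ((l'.map fun k => l.getD k 0).getD k 0) = l.getD (l'[(k : ℕ)]) 0 := by
    rw [List.getD_eq_getElem _ _ (by simpa using hk), List.getElem_map]
  have e3 : ((vm p n l (vm p' p l' k) : Fin (n + 1)) : ℕ) =
      min (l.getD ((vm p' p l' k : Fin (p + 1)) : ℕ) 0) n := rfl
  change ((vm p n l (vm p' p l' k) : Fin (n + 1)) : ℕ) = _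
  rw [e3, e1, vm_val, e2]

/-- the value on the edge from `i` to `j` -/
noncomputable def ed {n : ℕ} (a : Coch 1 X (ZMod 2)) (σ : C(Simp n, X)) (i j : ℕ) : ZMod 2 :=
  a (σ.comp (smap (vm 1 n [i, j])))

theorem ed_add {n : ℕ} {a : Coch 1 X (ZMod 2)} (ha : cob 1 a = 0) (σ : C(Simp n, X)) {i j k : ℕ}
    (hij : i < j) (hjk : j < k) (hk : k ≤ n) : ed a σ i j + ed a σ j k = ed a σ i k := by
  have h := congrFun ha (σ.comp (smap (vm 2 n [i, j, k])))
  have hok : ok 2 n [i, j, k] := ⟨rfl, by simp; omega⟩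
  rw [cob_two] at h
  simp only [List.range_succ_eq_map, List.range_zero, List.map_cons, List.map_nil, List.sum_cons,
    List.sum_nil, ContinuousMap.comp_assoc, smap_comp, Pi.zero_apply, Nat.succ_eq_add_one,
    zero_add, add_zero] at h
  rw [vm_comp_fv hok (by omega), vm_comp_fv hok (by omega), vm_comp_fv hok (by omega)] at h
  have h' : ed a σ j k + (ed a σ i k + ed a σ i j) = 0 := h
  generalize ed a σ j k = x at *
  generalize ed a σ i k = y at *
  generalize ed a σ i j = z at *
  revert h'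
  revert x y z
  decide

/-- potential of a 1-cocycle on a simplex -/
noncomputable def pot {n : ℕ} (a : Coch 1 X (ZMod 2)) (σ : C(Simp n, X)) (i : ℕ) : ZMod 2 :=
  if i = 0 then 0 else ed a σ 0 i

theorem ed_eq_pot {n : ℕ} {a : Coch 1 X (ZMod 2)} (ha : cob 1 a = 0) (σ : C(Simp n, X)) {i j : ℕ}
    (hij : i < j) (hj : j ≤ n) : ed a σ i j = pot a σ i + pot a σ j := by
  unfold pot
  rw [if_neg (by omega : ¬ j = 0)]
  by_cases hi : i = 0
  · subst hi
    simp
  · rw [if_neg hi, ← ed_add ha σ (Nat.pos_of_ne_zero hi) hij hj, ← add_assoc,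
      CharTwo.add_self_eq_zero, zero_add]

/-- The power `a^k` of a 1-cochain. -/
noncomputable def pw (k : ℕ) (a : Coch 1 X (ZMod 2)) : Coch k X (ZMod 2) :=
  fun σ => ∏ t ∈ Finset.range k, ed a σ t (t + 1)

theorem pbC_pw (k : ℕ) (f : C(X, Y)) (a : Coch 1 Y (ZMod 2)) :
    pbC k f (pw k a) = pw k (pbC 1 f a) := rfl

/-- product along a list -/
def pl (G : ℕ → ZMod 2) : List ℕ → ZMod 2
  | [] => 1
  | [_] => 1
  | u :: v :: t => (G u + G v) * pl G (v :: t)

/-- strictly increasing, checked along the list -/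
def incr : List ℕ → Prop
  | [] => True
  | [_] => True
  | u :: v :: t => u < v ∧ incr (v :: t)

instance : DecidablePred incr := fun l => by
  induction l with
  | nil => exact isTrue trivial
  | cons u t ih =>
    cases t with
    | nil => exact isTrue trivial
    | cons v t => exact @instDecidableAnd _ _ _ ih

theorem incr_getD {l : List ℕ} (h : incr l) {t : ℕ} (ht : t + 1 < l.length) :
    l.getD t 0 < l.getD (t + 1) 0 := by
  induction l generalizing t with
  | nil => simp at ht
  | cons u l ih =>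
    cases l with
    | nil => simp at ht
    | cons v l =>
      cases t with
      | zero => exact h.1
      | succ t => exact ih h.2 (by simpa using ht)

theorem pl_eq_prod (G : ℕ → ZMod 2) (l : List ℕ) (k : ℕ) (h : l.length = k + 1) :
    pl G l = ∏ t ∈ Finset.range k, (G (l.getD t 0) + G (l.getD (t + 1) 0)) := by
  induction l generalizing k with
  | nil => simp at h
  | cons u l ih =>
    cases l with
    | nil =>
      have : k = 0 := by simpa using h.symm
      subst this
      simp [pl]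
    | cons v l =>
      cases k with
      | zero => simp at h
      | succ k =>
        rw [Finset.prod_range_succ']
        rw [pl, ih k (by simpa using h), mul_comm]
        rfl

theorem pw_face {k n : ℕ} {a : Coch 1 X (ZMod 2)} (ha : cob 1 a = 0) (σ : C(Simp n, X))
    {l : List ℕ} (hl : ok k n l) (hi : incr l) :
    pw k a (σ.comp (smap (vm k n l))) = pl (pot a σ) l := by
  rw [pl_eq_prod _ _ k hl.1, pw]
  refine Finset.prod_congr rfl fun t ht => ?_
  have ht' : t < k := Finset.mem_range.1 ht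
  have hok : ok 1 k [t, t + 1] := ⟨rfl, by simp; omega⟩
  have hlen := hl.1
  have hlt : l.getD t 0 < l.getD (t + 1) 0 := incr_getD hi (by omega)
  have hle : l.getD (t + 1) 0 ≤ n := by
    rw [List.getD_eq_getElem _ _ (by omega)]
    exact hl.2 _ (List.getElem_mem _)
  rw [← ed_eq_pot ha σ hlt hle]
  unfold ed
  rw [ContinuousMap.comp_assoc, smap_comp, vm_comp_vm hl hok]
  rfl

theorem pw_self {n : ℕ} {a : Coch 1 X (ZMod 2)} (ha : cob 1 a = 0) (σ : C(Simp n, X))
    {l : List ℕ} (hl : ok n n l) (hi : incr l) (hid : vm n n l = id) :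
    pw n a σ = pl (pot a σ) l := by
  rw [← pw_face ha σ hl hi, hid, smap_id, ContinuousMap.comp_id]

/-! ### The finite check for `a^6 ∪_4 a^6 = a^8` -/

/-- consecutive bits are different -/
def alt (m : ℕ) : List ℕ → Bool
  | [] => true
  | [_] => true
  | u :: v :: t => (m.testBit u ^^ m.testBit v) && alt m (v :: t)

/-- the parity of the number of terms -/
def cnt (m : ℕ) : List (List ℕ × List ℕ) → Bool
  | [] => false
  | ab :: t => (alt m ab.1 && alt m ab.2) ^^ cnt m t

theorem check668 : ((List.range 512).all fun m =>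
    cnt m pr668 == alt m [0, 1, 2, 3, 4, 5, 6, 7, 8]) = true := by decide +kernel

/-- the element of `ZMod 2` given by a Boolean -/
def bz (b : Bool) : ZMod 2 := if b then 1 else 0

theorem bz_xor (b c : Bool) : bz (b ^^ c) = bz b + bz c := by
  cases b <;> cases c <;> decide

theorem bz_and (b c : Bool) : bz (b && c) = bz b * bz c := by
  cases b <;> cases c <;> decide

theorem pl_eq_alt (G : ℕ → ZMod 2) (m : ℕ) (l : List ℕ) (h : ∀ v ∈ l, G v = bz (m.testBit v)) :
    pl G l = bz (alt m l) := by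
  induction l with
  | nil => rfl
  | cons u l ih =>
    cases l with
    | nil => rfl
    | cons v l =>
      rw [pl, alt, bz_and, bz_xor, ih (fun w hw => h w (List.mem_cons_of_mem _ hw)),
        h u (by simp), h v (by simp)]

theorem sum_eq_cnt (G : ℕ → ZMod 2) (m : ℕ) (L : List (List ℕ × List ℕ))
    (h : ∀ ab ∈ L, (∀ v ∈ ab.1, G v = bz (m.testBit v)) ∧ ∀ v ∈ ab.2, G v = bz (m.testBit v)) :
    (L.map fun ab => pl G ab.1 * pl G ab.2).sum = bz (cnt m L) := by
  induction L with
  | nil => rfl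
  | cons ab L ih =>
    rw [List.map_cons, List.sum_cons, cnt, bz_xor, bz_and,
      ih (fun x hx => h x (List.mem_cons_of_mem _ hx)),
      pl_eq_alt G m _ (h ab (by simp)).1, pl_eq_alt G m _ (h ab (by simp)).2]

theorem exists_code (G : ℕ → ZMod 2) (n : ℕ) :
    ∃ m < 2 ^ n, ∀ v < n, G v = bz (m.testBit v) := by
  refine ⟨Nat.ofBits (fun i : Fin n => decide (G i = 1)), Nat.ofBits_lt_two_pow _, fun v hv => ?_⟩
  rw [Nat.testBit_ofBits_lt _ _ hv]
  change G v = bz (decide (G v = 1))
  generalize G v = x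
  revert x
  decide

theorem incr668 : ∀ ab ∈ pr668, incr ab.1 ∧ incr ab.2 := by decide +kernel

/-- `a^6 ∪_4 a^6 = a^8` for every cocycle `a` of degree one. -/
theorem pw_cup4 {a : Coch 1 X (ZMod 2)} (ha : cob 1 a = 0) :
    bil 6 6 8 pr668 (pw 6 a) (pw 6 a) = pw 8 a := by
  funext σ
  obtain ⟨m, hm, hG⟩ := exists_code (pot a σ) 9
  have hid : vm 8 8 [0, 1, 2, 3, 4, 5, 6, 7, 8] = id := by
    funext k
    fin_cases k <;> rfl
  rw [pw_self ha σ (l := [0, 1, 2, 3, 4, 5, 6, 7, 8]) ⟨rfl, by decide⟩ (by decide) hid]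
  have e1 : bil 6 6 8 pr668 (pw 6 a) (pw 6 a) σ =
      (pr668.map fun ab => pl (pot a σ) ab.1 * pl (pot a σ) ab.2).sum := by
    unfold bil
    congr 1
    refine List.map_congr_left fun ab hab => ?_
    rw [pw_face ha σ (ok668 ab hab).1 (incr668 ab hab).1,
      pw_face ha σ (ok668 ab hab).2 (incr668 ab hab).2]
  rw [e1, sum_eq_cnt (pot a σ) m, pl_eq_alt (pot a σ) m]
  · have h := List.all_eq_true.1 check668 m (List.mem_range.2 hm)
    rw [beq_iff_eq.1 h]
  · intro v hv
    exact hG v (by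
      have : v ≤ 8 := (show ok 8 8 [0, 1, 2, 3, 4, 5, 6, 7, 8] from ⟨rfl, by decide⟩).2 v hv
      omega)
  · intro ab hab
    exact ⟨fun v hv => hG v (Nat.lt_succ_of_le ((ok668 ab hab).1.2 v hv)),
      fun v hv => hG v (Nat.lt_succ_of_le ((ok668 ab hab).2.2 v hv))⟩

end Pool.Agent.Lib.MP_89fcdb_gt.H27
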