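import Pool.Agent.Lib.MP_89fcdb_gt.H27.Pow

/-!
# MP_89fcdb_gt: consequences of the identities for `∪_3`, `∪_4`
-/

open scoped BigOperators
open Pool.Agent.Lib.MP_904b2a_gt

namespace Pool.Agent.Lib.MP_89fcdb_gt.H27

variable {X Y : Type*} [TopologicalSpace X] [TopologicalSpace Y]

theorem coch_add_self {n : ℕ} (φ : Coch n X (ZMod 2)) : φ + φ = 0 := by
  funext σ
  exact CharTwo.add_self_eq_zero _

theorem coch_eq_of_add {n : ℕ} {φ ψ : Coch n X (ZMod 2)} (h : φ + ψ = 0) : φ = ψ := by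
  funext σ
  have := congrFun h σ
  simp only [Pi.add_apply, Pi.zero_apply] at this
  generalize φ σ = a at *
  generalize ψ σ = b at *
  revert a b
  decide

/-- the pair of faces of the cup product -/
def cp (p q : ℕ) : List (List ℕ × List ℕ) :=
  [(List.range (p + 1), (List.range (q + 1)).map (· + p))]

theorem bil_nil (p q n : ℕ) (φ : Coch p X (ZMod 2)) (ψ : Coch q X (ZMod 2)) :
    bil p q n [] φ ψ = 0 := rfl

theorem cob_cup52 (φ : Coch 5 X (ZMod 2)) (ψ : Coch 2 X (ZMod 2)) :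
    cob 7 (bil 5 2 7 (cp 5 2) φ ψ) = bil 6 2 8 (cp 6 2) (cob 5 φ) ψ +
      bil 5 3 8 (cp 5 3) φ (cob 2 ψ) := by
  have h := cob_formula (X := X) (p := 5) (q := 2) (n := 7) (L0 := cp 5 2) (L1 := cp 6 2)
    (L2 := cp 5 3) (L3 := []) (L4 := []) (by decide +kernel) (by decide +kernel)
    (by decide +kernel) (by decide +kernel) φ ψ
  rw [h, bil_nil, bil_nil, add_zero, add_zero]

theorem cob_cup05 (φ : Coch 0 X (ZMod 2)) (ψ : Coch 5 X (ZMod 2)) :
    cob 5 (bil 0 5 5 (cp 0 5) φ ψ) = bil 1 5 6 (cp 1 5) (cob 0 φ) ψ +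
      bil 0 6 6 (cp 0 6) φ (cob 5 ψ) := by
  have h := cob_formula (X := X) (p := 0) (q := 5) (n := 5) (L0 := cp 0 5) (L1 := cp 1 5)
    (L2 := cp 0 6) (L3 := []) (L4 := []) (by decide +kernel) (by decide +kernel)
    (by decide +kernel) (by decide +kernel) φ ψ
  rw [h, bil_nil, bil_nil, add_zero, add_zero]

/-- `δ(c ∪_4 δc + c ∪_3 c) = δc ∪_4 δc`. -/
theorem sq_coboundary (c : Coch 5 X (ZMod 2)) :
    cob 7 (bil 5 6 7 pr567 c (cob 5 c) + bil 5 5 7 pr557 c c) =
      bil 6 6 8 pr668 (cob 5 c) (cob 5 c) := by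
  rw [map_add, cob_formula ok567 ok668 ok578 chk1 c (cob 5 c),
    cob_formula ok557 ok658 ok568 chk2 c c, cob_cob, bil_zero_right, add_zero]
  have e : ∀ x y z w : Coch 8 X (ZMod 2), x + y + z + (z + y + w + w) = x := by
    intro x y z w
    funext σ
    simp only [Pi.add_apply]
    generalize x σ = x
    generalize y σ = y
    generalize z σ = z
    generalize w σ = w
    revert x y z w
    decide
  exact e _ _ _ _

/-- `δ(d ∪_4 c) = d ∪_4 δc + d ∪_3 c + c ∪_3 d` for a cocycle `d`. -/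
theorem cross_coboundary {d : Coch 5 X (ZMod 2)} (hd : cob 5 d = 0) (c : Coch 5 X (ZMod 2)) :
    cob 6 (bil 5 5 6 pr556 d c) =
      bil 5 6 7 pr567 d (cob 5 c) + bil 5 5 7 pr557 d c + bil 5 5 7 pr557 c d := by
  rw [cob_formula ok556 ok657 ok567 chk3 d c, hd, bil_zero_left, zero_add]

/-- a square `d ∪_3 d` of a cocycle is a cocycle -/
theorem cob_sq {d : Coch 5 X (ZMod 2)} (hd : cob 5 d = 0) :
    cob 7 (bil 5 5 7 pr557 d d) = 0 := by
  rw [cob_formula ok557 ok658 ok568 chk2 d d, hd, bil_zero_left, bil_zero_right, zero_add, zero_add]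
  exact coch_add_self _

/-! ### Powers -/

theorem fv_eq_vm (n i : ℕ) (h : vm n n (List.range (n + 1)) = id) (hi : ok n n (List.range (n + 1))) :
    fv n i = vm n (n + 1) ((List.range (n + 1)).map (sh i)) := by
  have := fv_comp_vm hi i
  rwa [h, Function.comp_id] at this

/-- the faces of a simplex as a list -/
def fcs (k : ℕ) : List (List ℕ × List ℕ) :=
  (List.range (k + 2)).map fun i => ((List.range (k + 1)).map (sh i), [])

theorem check_cob (k : ℕ) (hid : vm k k (List.range (k + 1)) = id)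
    (hok : ok k k (List.range (k + 1)))
    (hf : ∀ ab ∈ fcs k, ok k (k + 1) ab.1 ∧ incr ab.1)
    (hc : ((List.range (2 ^ (k + 2))).all fun m => cnt m (fcs k) == false) = true)
    {a : Coch 1 X (ZMod 2)} (ha : cob 1 a = 0) : cob k (pw k a) = 0 := by
  funext σ
  obtain ⟨m, hm, hG⟩ := exists_code (pot a σ) (k + 2)
  rw [cob_two]
  have e1 : ((List.range (k + 2)).map fun i => pw k a (σ.comp (smap (fv k i)))).sum =
      ((fcs k).map fun ab => pl (pot a σ) ab.1 * pl (pot a σ) ab.2).sum := by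
    rw [fcs, List.map_map]
    congr 1
    refine List.map_congr_left fun i hi => ?_
    have hmem : ((List.range (k + 1)).map (sh i), ([] : List ℕ)) ∈ fcs k :=
      List.mem_map.2 ⟨i, hi, rfl⟩
    rw [fv_eq_vm k i hid hok, pw_face ha σ (hf _ hmem).1 (hf _ hmem).2]
    simp [pl]
  rw [e1, sum_eq_cnt (pot a σ) m, beq_iff_eq.1 (List.all_eq_true.1 hc m (List.mem_range.2 hm))]
  · rfl
  · intro ab hab
    refine ⟨fun v hv => hG v (Nat.lt_succ_of_le ((hf ab hab).1.2 v hv)), fun v hv => ?_⟩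
    rw [fcs, List.mem_map] at hab
    obtain ⟨i, _, rfl⟩ := hab
    simp at hv

theorem cob_pw2 {a : Coch 1 X (ZMod 2)} (ha : cob 1 a = 0) : cob 2 (pw 2 a) = 0 :=
  check_cob 2 (by funext k; fin_cases k <;> rfl) (by decide) (by decide) (by decide +kernel) ha

theorem cob_pw3 {a : Coch 1 X (ZMod 2)} (ha : cob 1 a = 0) : cob 3 (pw 3 a) = 0 :=
  check_cob 3 (by funext k; fin_cases k <;> rfl) (by decide) (by decide) (by decide +kernel) ha

theorem cob_pw5 {a : Coch 1 X (ZMod 2)} (ha : cob 1 a = 0) : cob 5 (pw 5 a) = 0 :=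
  check_cob 5 (by funext k; fin_cases k <;> rfl) (by decide) (by decide) (by decide +kernel) ha

theorem cob_pw6 {a : Coch 1 X (ZMod 2)} (ha : cob 1 a = 0) : cob 6 (pw 6 a) = 0 :=
  check_cob 6 (by funext k; fin_cases k <;> rfl) (by decide) (by decide) (by decide +kernel) ha

theorem cob_pw8 {a : Coch 1 X (ZMod 2)} (ha : cob 1 a = 0) : cob 8 (pw 8 a) = 0 :=
  check_cob 8 (by funext k; fin_cases k <;> rfl) (by decide) (by decide) (by decide +kernel) ha

theorem pw_cup {p q n : ℕ} (h : p + q = n) (hp : ok p n (List.range (p + 1)))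
    (hq : ok q n ((List.range (q + 1)).map (· + p)))
    (a : Coch 1 X (ZMod 2)) :
    bil p q n (cp p q) (pw p a) (pw q a) = pw n a := by
  funext σ
  subst h
  simp only [bil, cp, List.map_cons, List.map_nil, List.sum_cons, List.sum_nil, add_zero]
  rw [pw, pw, pw, Finset.prod_range_add]
  congr 1
  · refine Finset.prod_congr rfl fun t ht => ?_
    have ht' : t < p := Finset.mem_range.1 ht
    have hok : ok 1 p [t, t + 1] := ⟨rfl, by simp; omega⟩
    unfold ed
    rw [ContinuousMap.comp_assoc, smap_comp, vm_comp_vm hp hok]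
    congr 4
    simp only [List.map_cons, List.map_nil]
    rw [List.getD_eq_getElem _ _ (by simp; omega), List.getD_eq_getElem _ _ (by simp; omega)]
    simp
  · refine Finset.prod_congr rfl fun t ht => ?_
    have ht' : t < q := Finset.mem_range.1 ht
    have hok : ok 1 q [t, t + 1] := ⟨rfl, by simp; omega⟩
    unfold ed
    rw [ContinuousMap.comp_assoc, smap_comp, vm_comp_vm hq hok]
    congr 4
    simp only [List.map_cons, List.map_nil]
    rw [List.getD_eq_getElem _ _ (by simp; omega), List.getD_eq_getElem _ _ (by simp; omega)]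
    simp
    omega

theorem pw_one (a : Coch 1 X (ZMod 2)) : pw 1 a = a := by
  funext σ
  simp only [pw, Finset.prod_range_one, ed]
  have : (vm 1 1 [0, 0 + 1]) = id := by funext k; fin_cases k <;> rfl
  rw [this, smap_id, ContinuousMap.comp_id]

theorem pw_cup62 (a : Coch 1 X (ZMod 2)) :
    bil 6 2 8 (cp 6 2) (pw 6 a) (pw 2 a) = pw 8 a :=
  pw_cup rfl (by decide) (by decide) a

theorem pw_cup15 (a : Coch 1 X (ZMod 2)) :
    bil 1 5 6 (cp 1 5) a (pw 5 a) = pw 6 a := by
  have := pw_cup (X := X) (p := 1) (q := 5) (n := 6) rfl (by decide) (by decide) a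
  rwa [pw_one] at this

end Pool.Agent.Lib.MP_89fcdb_gt.H27
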